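import Mathlib
import Pool.Agent.TH445.OI.A3
import Pool.Agent.TH212.EH.A0

/-! Primes `n ≤ x`, `n ≡ N (mod m)`, `m` at most a power of `log N`, for all `x ≤ N` (helper95). -/

set_option autoImplicit false

open Finset

open scoped ArithmeticFunction.vonMangoldt

namespace Pool.Agent.K3h95.LL

open Pool.Agent.TH445.OI

/-- the sum of `Λ n` over `n ≤ x`, `n ≡ N (mod m)` -/
noncomputable def P (N m x : ℕ) : ℝ := ∑ n ∈ (Icc 1 x).filter (fun n => n ≡ N [MOD m]), Λ n

lemma P_nonneg (N m x : ℕ) : 0 ≤ P N m x := sum_nonneg fun _ _ => ArithmeticFunction.vonMangoldt_nonneg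

lemma P_mono (N m : ℕ) {x y : ℕ} (h : x ≤ y) : P N m x ≤ P N m y := by
  unfold P
  apply sum_le_sum_of_subset_of_nonneg
  · intro n hn
    rw [mem_filter, mem_Icc] at hn ⊢
    exact ⟨⟨hn.1.1, hn.1.2.trans h⟩, hn.2⟩
  · intro _ _ _; exact ArithmeticFunction.vonMangoldt_nonneg

lemma P_eq (N m x : ℕ) : P N m x = H343E.psiAP x m (N % m) := by
  unfold P H343E.psiAP
  rw [Nat.floor_natCast]
  apply sum_congr _ (fun _ _ => rfl)
  ext n
  rw [mem_filter, mem_filter, Nat.ModEq, Nat.ModEq, Nat.mod_mod]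

lemma P_le (N m x : ℕ) : P N m x ≤ x * Real.log x := by
  unfold P
  refine (sum_le_sum_of_subset_of_nonneg (filter_subset _ _)
    (fun _ _ _ => ArithmeticFunction.vonMangoldt_nonneg)).trans ?_
  calc ∑ n ∈ Icc 1 x, Λ n ≤ ∑ n ∈ Icc 1 x, Real.log x := by
        apply sum_le_sum
        intro n hn
        rw [mem_Icc] at hn
        refine ArithmeticFunction.vonMangoldt_le_log.trans ?_
        exact Real.log_le_log (by exact_mod_cast hn.1) (by exact_mod_cast hn.2)
    _ = _ := by rw [sum_const, Nat.card_Icc, Nat.add_sub_cancel, nsmul_eq_mul]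

/-- Siegel-Walfisz, uniformly in `x ≤ N` -/
theorem sw (U K : ℕ) : ∃ N0 : ℕ, ∀ N : ℕ, N0 ≤ N → ∀ m : ℕ, 1 ≤ m → (m : ℝ) ≤ Real.log N ^ K → N.Coprime m →
    ∀ x : ℕ, x ≤ N → |P N m x - x / (Nat.totient m : ℝ)| ≤ N / Real.log N ^ U := by
  obtain ⟨y1, h1⟩ := sw_psi (U + 1) (K + 1)
  obtain ⟨C, hC, y2, h2⟩ := Pool.Agent.H442R2.EHI.PntErrAux.largeU (U + 1)
  obtain ⟨y3, h3⟩ := evN _ (ev_pow (U + 1) 2 (1 / 2) (by norm_num))
  obtain ⟨y4, h4⟩ := evN _ (Real.tendsto_log_atTop.eventually_ge_atTop (2 ^ (U + 1) * (1 + C) + 2 + 2 ^ (K + 1)))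
  refine ⟨max (max ((y1 + y2 + 1) ^ 2) 0) (max (max y3 y4) 16), fun N hN m hm hmK hcop x hx => ?_⟩
  have hN1 : (y1 + y2 + 1) ^ 2 ≤ N := by omega
  have hN3 : y3 ≤ N := by omega
  have hN4 : y4 ≤ N := by omega
  have hN5 : 16 ≤ N := by omega
  have hNR : (16 : ℝ) ≤ N := by exact_mod_cast hN5
  have hN0 : (0 : ℝ) < N := by linarith
  set L := Real.log N with hL
  have g4 := h4 N hN4
  rw [← hL] at g4
  have hp1 : (0 : ℝ) < 2 ^ (U + 1) * (1 + C) := by positivity
  have hp2 : (1 : ℝ) ≤ 2 ^ (K + 1) := one_le_pow₀ (by norm_num)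
  have hL1 : 1 ≤ L := by linarith
  have hL0 : 0 < L := by linarith
  have g3 := h3 N hN3
  rw [← Real.sqrt_eq_rpow, ← hL] at g3
  have hss := Real.mul_self_sqrt hN0.le
  have hs0 : 0 < √(N : ℝ) := by positivity
  have hφ1 : (1 : ℝ) ≤ Nat.totient m := by exact_mod_cast Nat.totient_pos.2 hm
  rcases lt_or_ge (x : ℝ) √(N : ℝ) with hxs | hxs
  · -- small `x`
    have e1 : P N m x ≤ √(N : ℝ) * L := by
      rcases Nat.eq_zero_or_pos x with h0 | h0
      · subst h0
        have : P N m 0 = 0 := by unfold P; simp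
        rw [this]; positivity
      · refine (P_le N m x).trans ?_
        have hx0 : (0 : ℝ) < x := by exact_mod_cast h0
        apply mul_le_mul hxs.le _ (Real.log_nonneg (by exact_mod_cast h0)) hs0.le
        exact Real.log_le_log hx0 (by exact_mod_cast hx)
    have e2 : (x : ℝ) / Nat.totient m ≤ √(N : ℝ) * L := by
      calc (x : ℝ) / Nat.totient m ≤ x := div_le_self (Nat.cast_nonneg _) hφ1
        _ ≤ √(N : ℝ) := hxs.le
        _ ≤ _ := le_mul_of_one_le_right hs0.le hL1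
    have e3 : √(N : ℝ) * L ≤ N / L ^ U := by
      rw [le_div_iff₀ (by positivity)]
      have : L * L ^ U ≤ √(N : ℝ) := by
        have e4 : L * L ^ U = L ^ (U + 1) := by ring
        rw [e4]
        nlinarith [pow_pos hL0 (U + 1)]
      calc √(N : ℝ) * L * L ^ U = √(N : ℝ) * (L * L ^ U) := by ring
        _ ≤ √(N : ℝ) * √(N : ℝ) := mul_le_mul_of_nonneg_left this hs0.le
        _ = N := hss
    have e5 := P_nonneg N m x
    have e6 : (0 : ℝ) ≤ x / Nat.totient m := by positivity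
    rw [abs_le]
    constructor <;> linarith
  · -- large `x`
    have hxy : ((y1 + y2 + 1 : ℕ) : ℝ) ≤ √(N : ℝ) := by
      apply Real.le_sqrt_of_sq_le
      exact_mod_cast hN1
    have hxy' : y1 + y2 + 1 ≤ x := by exact_mod_cast hxy.trans hxs
    have hx0 : (0 : ℝ) < x := by
      have : 0 < x := by omega
      exact_mod_cast this
    have hlx : L / 2 ≤ Real.log x := by
      have := Real.log_le_log hs0 hxs
      rw [Real.log_sqrt hN0.le] at this
      exact this
    have hl0 : 0 < Real.log x := by linarith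
    have hxN : (x : ℝ) ≤ N := by exact_mod_cast hx
    have hmx : (m : ℝ) ≤ Real.log x ^ (K + 1) := by
      calc (m : ℝ) ≤ L ^ K := hmK
        _ ≤ (L / 2) ^ (K + 1) := by
            rw [div_pow, le_div_iff₀ (by positivity), pow_succ L K]
            apply mul_le_mul_of_nonneg_left _ (by positivity)
            linarith
        _ ≤ _ := pow_le_pow_left₀ (by positivity) hlx _
    have a1 := h1 x (by omega) m hm hmx (N % m) (Nat.mod_lt _ hm) (by
      have h5 := hcop.gcd_eq_one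
      rw [← Nat.gcd_comm, Nat.gcd_rec] at h5
      exact h5)
    have a2 := h2 x (by omega)
    rw [← P_eq, psi1_eq] at a1
    have hq : (x : ℝ) / Real.log x ^ (U + 1) ≤ 2 ^ (U + 1) * (N / L ^ (U + 1)) := by
      calc (x : ℝ) / Real.log x ^ (U + 1) ≤ N / (L / 2) ^ (U + 1) := by
            apply div_le_div₀ hN0.le hxN (by positivity)
            exact pow_le_pow_left₀ (by positivity) hlx _
        _ = _ := by rw [div_pow]; field_simp
    have a3 : |Chebyshev.psi (x : ℝ) / (Nat.totient m : ℝ) - x / (Nat.totient m : ℝ)| ≤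
        C * (x / Real.log x ^ (U + 1)) + 2 := by
      rw [← sub_div, abs_div, abs_of_pos (by linarith : (0 : ℝ) < Nat.totient m)]
      refine (div_le_self (abs_nonneg _) hφ1).trans a2
    have a4 : |P N m x - x / (Nat.totient m : ℝ)| ≤ (1 + C) * (x / Real.log x ^ (U + 1)) + 2 := by
      have := abs_sub_le (P N m x) (Chebyshev.psi (x : ℝ) / (Nat.totient m : ℝ)) (x / (Nat.totient m : ℝ))
      linarith
    refine a4.trans ?_
    have a5 : (1 + C) * (x / Real.log x ^ (U + 1)) ≤ (2 ^ (U + 1) * (1 + C)) * (N / L ^ (U + 1)) := by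
      have := mul_le_mul_of_nonneg_left hq (by linarith : 0 ≤ 1 + C)
      linarith
    have a6 : (2 : ℝ) ≤ 2 * (N / L ^ (U + 1)) := by
      have : 1 ≤ N / L ^ (U + 1) := by
        rw [le_div_iff₀ (by positivity), one_mul]
        have : √(N : ℝ) ≤ N := by
          have h7 : 1 ≤ √(N : ℝ) := by
            rw [Real.one_le_sqrt]; linarith
          nlinarith
        nlinarith [pow_pos hL0 (U + 1)]
      linarith
    have a7 : N / L ^ U = L * (N / L ^ (U + 1)) := by
      rw [pow_succ]; field_simp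
    rw [a7]
    have a8 : 0 < N / L ^ (U + 1) := by positivity
    have a9 : (2 ^ (U + 1) * (1 + C) + 2) * (N / L ^ (U + 1)) ≤ L * (N / L ^ (U + 1)) :=
      mul_le_mul_of_nonneg_right (by linarith) a8.le
    linarith

/-- the prime powers of one prime -/
lemma mult_le (N p : ℕ) (hp : p.Prime) (hN : 1 ≤ N) :
    ∑ n ∈ (Icc 1 N).filter (fun n => p ∣ n), Λ n ≤ Real.log N := by
  have h1 : ∑ n ∈ (Icc 1 N).filter (fun n => p ∣ n), Λ n ≤
      ∑ n ∈ (Icc 1 (Nat.log p N)).image (fun i => p ^ i), Λ n := by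
    rw [← sum_filter_ne_zero]
    apply sum_le_sum_of_subset_of_nonneg
    · intro n hn
      rw [mem_filter, mem_filter, mem_Icc] at hn
      obtain ⟨⟨⟨h2, h3⟩, h4⟩, h5⟩ := hn
      rw [ArithmeticFunction.vonMangoldt_ne_zero_iff, isPrimePow_nat_iff] at h5
      obtain ⟨q, k, hq, hk, rfl⟩ := h5
      have h6 : p = q := (Nat.prime_dvd_prime_iff_eq hp hq).1 (hp.dvd_of_dvd_pow h4)
      subst h6
      rw [mem_image]
      exact ⟨k, mem_Icc.2 ⟨hk, (Nat.le_log_iff_pow_le hp.one_lt (by omega)).2 h3⟩, rfl⟩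
    · intro _ _ _; exact ArithmeticFunction.vonMangoldt_nonneg
  refine h1.trans ?_
  rw [sum_image (by
    intro a _ b _ hab
    exact Nat.pow_right_injective hp.two_le hab)]
  have h2 : ∑ i ∈ Icc 1 (Nat.log p N), Λ (p ^ i) = ∑ i ∈ Icc 1 (Nat.log p N), Real.log p := by
    apply sum_congr rfl
    intro i hi
    rw [mem_Icc] at hi
    rw [ArithmeticFunction.vonMangoldt_apply_pow (by omega), ArithmeticFunction.vonMangoldt_apply_prime hp]
  rw [h2, sum_const, Nat.card_Icc, Nat.add_sub_cancel, nsmul_eq_mul, ← Real.log_pow]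
  apply Real.log_le_log (by exact_mod_cast pow_pos hp.pos _)
  exact_mod_cast Nat.pow_log_le_self p (by omega)

/-- the classes that are not reduced -/
lemma ncop (N m x : ℕ) (hN : 1 ≤ N) (hx : x ≤ N) (h : ¬ N.Coprime m) : P N m x ≤ Real.log N := by
  obtain ⟨p, hp, h1, h2⟩ := Nat.Prime.not_coprime_iff_dvd.1 h
  refine le_trans ?_ (mult_le N p hp hN)
  unfold P
  apply sum_le_sum_of_subset_of_nonneg
  · intro n hn
    rw [mem_filter, mem_Icc] at hn ⊢
    refine ⟨⟨hn.1.1, hn.1.2.trans hx⟩, ?_⟩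
    exact (Nat.ModEq.dvd_iff (hn.2.of_dvd h2) dvd_rfl).2 h1
  · intro _ _ _; exact ArithmeticFunction.vonMangoldt_nonneg

/-- the prime powers not prime to `N` -/
lemma noncop_total (N : ℕ) (hN : 1 ≤ N) :
    ∑ n ∈ (Icc 1 N).filter (fun n => ¬ n.Coprime N), Λ n ≤ 2 * Real.log N * Real.log N := by
  have h1 : ∑ n ∈ (Icc 1 N).filter (fun n => ¬ n.Coprime N), Λ n ≤
      ∑ p ∈ N.primeFactors, ∑ n ∈ (Icc 1 N).filter (fun n => p ∣ n), Λ n := by
    simp only [sum_filter]
    rw [sum_comm]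
    apply sum_le_sum
    intro n hn
    have h0 : ∀ p ∈ N.primeFactors, (0 : ℝ) ≤ (if p ∣ n then Λ n else 0) := by
      intro p _
      split_ifs
      · exact ArithmeticFunction.vonMangoldt_nonneg
      · exact le_rfl
    by_cases hc : n.Coprime N
    · rw [if_neg (not_not.2 hc)]
      exact sum_nonneg h0
    · rw [if_pos hc]
      obtain ⟨p, hp, h3, h4⟩ := Nat.Prime.not_coprime_iff_dvd.1 hc
      have h5 := single_le_sum h0 (Nat.mem_primeFactors.2 ⟨hp, h4, by omega⟩)
      rwa [if_pos h3] at h5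
  have h2 : ∑ p ∈ N.primeFactors, ∑ n ∈ (Icc 1 N).filter (fun n => p ∣ n), Λ n ≤
      ∑ p ∈ N.primeFactors, Real.log N := by
    apply sum_le_sum
    intro p hp
    exact mult_le N p (Nat.prime_of_mem_primeFactors hp) hN
  rw [sum_const, nsmul_eq_mul] at h2
  refine h1.trans (h2.trans ?_)
  have hl : 0 ≤ Real.log N := Real.log_nonneg (by exact_mod_cast hN)
  apply mul_le_mul_of_nonneg_right _ hl
  have h8 : 2 ^ N.primeFactors.card ≤ N := by
    calc 2 ^ N.primeFactors.card = ∏ p ∈ N.primeFactors, 2 := by rw [prod_const]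
      _ ≤ ∏ p ∈ N.primeFactors, p := prod_le_prod' fun p hp => (Nat.prime_of_mem_primeFactors hp).two_le
      _ ≤ N := Nat.le_of_dvd (by omega) (Nat.prod_primeFactors_dvd N)
  have q1 : (2 : ℝ) ^ N.primeFactors.card ≤ N := by exact_mod_cast h8
  have q2 := Real.log_le_log (by positivity) q1
  rw [Real.log_pow] at q2
  have q3 : (1 : ℝ) / 2 ≤ Real.log 2 := by linarith [Real.log_two_gt_d9]
  nlinarith [(Nat.cast_nonneg N.primeFactors.card : (0 : ℝ) ≤ (N.primeFactors.card : ℝ))]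

end Pool.Agent.K3h95.LL
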