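import Mathlib
import Pool.Agent.K3h95.LL.A1

/-! The moduli `q` with exactly `j` multiples below `N`, and the primes `N - q k` (helper95). -/

set_option autoImplicit false

open Finset

open scoped ArithmeticFunction.vonMangoldt

namespace Pool.Agent.K3h95.LL

open Pool.Agent.TH445.OI

/-- the least integer `≥ N / j` -/
def cl (N j : ℕ) : ℕ := (N + j - 1) / j

lemma cl_le {N j q : ℕ} (hj : 1 ≤ j) : cl N j ≤ q ↔ N ≤ q * j := by
  unfold cl
  rw [← Nat.lt_succ_iff, Nat.div_lt_iff_lt_mul (by omega), Nat.succ_mul]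
  omega

lemma cl_mul_le {N j : ℕ} : cl N j * j ≤ N + j - 1 := Nat.div_mul_le_self _ _

/-- the integers `q` with `q j < N ≤ q (j + 1)` -/
def I (N j : ℕ) : Finset ℕ := Ico (cl N (j + 1)) (cl N j)

lemma mem_I {N j q : ℕ} (hj : 1 ≤ j) : q ∈ I N j ↔ N ≤ q * (j + 1) ∧ q * j < N := by
  unfold I
  rw [mem_Ico, cl_le (by omega), ← not_le, cl_le hj, not_le]

lemma cl_mono (N j : ℕ) (hj : 1 ≤ j) : cl N (j + 1) ≤ cl N j := by
  rw [cl_le (by omega)]
  have h := (cl_le (N := N) (q := cl N j) hj).1 le_rfl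
  nlinarith

lemma card_I (N j : ℕ) : (I N j).card = cl N j - cl N (j + 1) := by
  unfold I; rw [Nat.card_Ico]

/-- the sum of `Λ (N - q k)` over the multiples `q` of `m` in `I N j` -/
noncomputable def Ps (N j k m : ℕ) : ℝ := ∑ q ∈ (I N j).filter (fun q => m ∣ q), Λ (N - q * k)

lemma P_sub (N m x y : ℕ) (h : x ≤ y) :
    P N m y - P N m x = ∑ n ∈ (Ioc x y).filter (fun n => n ≡ N [MOD m]), Λ n := by
  unfold P
  rw [sub_eq_iff_eq_add, ← sum_union]
  · apply sum_congr _ (fun _ _ => rfl)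
    ext n
    simp only [mem_union, mem_filter, mem_Icc, mem_Ioc]
    constructor
    · rintro ⟨⟨h1, h2⟩, h3⟩
      rcases Nat.lt_or_ge x n with h4 | h4
      · exact Or.inl ⟨⟨h4, h2⟩, h3⟩
      · exact Or.inr ⟨⟨h1, h4⟩, h3⟩
    · rintro (⟨⟨h1, h2⟩, h3⟩ | ⟨⟨h1, h2⟩, h3⟩)
      · exact ⟨⟨by omega, h2⟩, h3⟩
      · exact ⟨⟨h1, by omega⟩, h3⟩
  · rw [disjoint_left]
    intro n h1 h2
    rw [mem_filter, mem_Ioc] at h1
    rw [mem_filter, mem_Icc] at h2
    omega

lemma Ps_eq (N j k m : ℕ) (hk : 1 ≤ k) (hkj : k ≤ j) (hm : 1 ≤ m) :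
    Ps N j k m = P N (k * m) (N - cl N (j + 1) * k) - P N (k * m) (N - cl N j * k) := by
  have hj : 1 ≤ j := hk.trans hkj
  have hcl := cl_mono N j hj
  rw [P_sub N (k * m) _ _ (Nat.sub_le_sub_left (Nat.mul_le_mul_right _ hcl) _)]
  unfold Ps
  apply sum_bij' (fun q _ => N - q * k) (fun n _ => (N - n) / k)
  · intro q hq
    rw [mem_filter, mem_I hj] at hq
    obtain ⟨⟨h1, h2⟩, h3⟩ := hq
    have h4 : q * k < N := lt_of_le_of_lt (Nat.mul_le_mul_left _ hkj) h2
    have h5 : q < cl N j := by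
      rw [← not_le, cl_le hj, not_le]; exact h2
    have h6 : cl N (j + 1) ≤ q := (cl_le (by omega)).2 h1
    have h7 : q * k < cl N j * k := Nat.mul_lt_mul_of_pos_right h5 hk
    have h8 : cl N (j + 1) * k ≤ q * k := Nat.mul_le_mul_right _ h6
    rw [mem_filter, mem_Ioc]
    refine ⟨⟨by omega, by omega⟩, ?_⟩
    rw [Nat.modEq_iff_dvd' (by omega), Nat.sub_sub_self h4.le, mul_comm k m]
    exact Nat.mul_dvd_mul_right h3 k
  · intro n hn
    rw [mem_filter, mem_Ioc] at hn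
    obtain ⟨⟨h1, h2⟩, h3⟩ := hn
    have h4 : n ≤ N := h2.trans (Nat.sub_le _ _)
    rw [Nat.modEq_iff_dvd' h4] at h3
    obtain ⟨t, ht⟩ := h3
    have h5 : N - n = m * t * k := by rw [ht]; ring
    have h6 : (N - n) / k = m * t := by rw [h5, Nat.mul_div_cancel _ hk]
    rw [h6, mem_filter]
    refine ⟨?_, Dvd.intro _ rfl⟩
    rw [I, mem_Ico]
    constructor
    · by_contra hcon
      push Not at hcon
      have h7 : m * t * k < cl N (j + 1) * k := Nat.mul_lt_mul_of_pos_right hcon hk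
      omega
    · by_contra hcon
      push Not at hcon
      have h7 : cl N j * k ≤ m * t * k := Nat.mul_le_mul_right _ hcon
      omega
  · intro q hq
    rw [mem_filter, mem_I hj] at hq
    obtain ⟨⟨h1, h2⟩, h3⟩ := hq
    have h4 : q * k < N := lt_of_le_of_lt (Nat.mul_le_mul_left _ hkj) h2
    rw [Nat.sub_sub_self h4.le, Nat.mul_div_cancel _ hk]
  · intro n hn
    rw [mem_filter, mem_Ioc] at hn
    obtain ⟨⟨h1, h2⟩, h3⟩ := hn
    have h4 : n ≤ N := h2.trans (Nat.sub_le _ _)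
    rw [Nat.modEq_iff_dvd' h4] at h3
    have h5 : k ∣ N - n := dvd_trans (Dvd.intro _ rfl) h3
    rw [Nat.div_mul_cancel h5, Nat.sub_sub_self h4]
  · intro q _
    rfl

/-- the density of the primes `N - q k` with `m ∣ q`, per unit of `q` -/
noncomputable def nu (N k m : ℕ) : ℝ := if N.Coprime (k * m) then (k : ℝ) / (Nat.totient (k * m) : ℝ) else 0

lemma nu_nonneg (N k m : ℕ) : 0 ≤ nu N k m := by
  unfold nu
  split_ifs
  · positivity
  · exact le_rfl

theorem Ps_asym (U K : ℕ) : ∃ N0 : ℕ, 3 ≤ N0 ∧ ∀ N : ℕ, N0 ≤ N → ∀ j k m : ℕ, 1 ≤ k → k ≤ j → 1 ≤ m →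
    (j : ℝ) ≤ Real.log N ^ K → ((k * m : ℕ) : ℝ) ≤ Real.log N ^ K →
    |Ps N j k m - nu N k m * ((I N j).card : ℝ)| ≤ 3 * (N / Real.log N ^ U) := by
  obtain ⟨N1, h1⟩ := sw U K
  obtain ⟨N2, h2⟩ := evN _ (ev_pow (U + K + 1) 2 1 one_pos)
  obtain ⟨N3, h3⟩ := evN _ (ev_pow (2 * K) 4 1 one_pos)
  obtain ⟨N4, h4⟩ := evN _ (Real.tendsto_log_atTop.eventually_ge_atTop 1)
  refine ⟨N1 + N2 + N3 + N4 + 3, by omega, fun N hN j k m hk hkj hm hjL hkm => ?_⟩
  have hN3 : 3 ≤ N := by omega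
  have hN0 : (0 : ℝ) < N := by exact_mod_cast (by omega : 0 < N)
  have hj : 1 ≤ j := hk.trans hkj
  set L := Real.log N with hL
  have hL1 : 1 ≤ L := h4 N (by omega)
  have hL0 : 0 < L := by linarith
  have g2 := h2 N (by omega)
  have g3 := h3 N (by omega)
  rw [← hL, Real.rpow_one] at g2 g3
  have hLK : 1 ≤ L ^ K := one_le_pow₀ hL1
  -- `(j + 1) ^ 2 ≤ N`
  have hjj : (j + 1) * (j + 1) ≤ N := by
    have e1 : ((j : ℝ) + 1) ≤ 2 * L ^ K := by linarith
    have e2 : ((j : ℝ) + 1) * (j + 1) ≤ 4 * L ^ (2 * K) := by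
      have e3 : L ^ (2 * K) = L ^ K * L ^ K := by rw [← pow_add]; congr 1; ring
      rw [e3]
      have e4 : (0 : ℝ) ≤ (j : ℝ) + 1 := by positivity
      nlinarith
    exact_mod_cast e2.trans g3
  have hsmall : (j : ℝ) + L ≤ N / L ^ U := by
    rw [le_div_iff₀ (by positivity)]
    have e1 : (j : ℝ) + L ≤ 2 * L ^ (K + 1) := by
      have e2 : L ^ K ≤ L ^ (K + 1) := pow_le_pow_right₀ hL1 (by omega)
      have e3 : L ≤ L ^ (K + 1) := le_self_pow₀ hL1 (by omega)
      linarith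
    calc ((j : ℝ) + L) * L ^ U ≤ (2 * L ^ (K + 1)) * L ^ U :=
          mul_le_mul_of_nonneg_right e1 (by positivity)
      _ = 2 * L ^ (U + K + 1) := by ring
      _ ≤ _ := g2
  set a := cl N (j + 1) with ha
  set b := cl N j with hb
  have hab : a ≤ b := cl_mono N j hj
  have ha1 : a * (j + 1) ≤ N + j := by
    have := cl_mul_le (N := N) (j := j + 1)
    rw [← ha] at this
    omega
  have ha2 : N ≤ a * (j + 1) := (cl_le (by omega)).1 le_rfl
  have hb1 : b * j ≤ N + j - 1 := cl_mul_le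
  have hb2 : N ≤ b * j := (cl_le hj).1 le_rfl
  have haj : j + 1 ≤ a := by
    by_contra hcon
    push Not at hcon
    have : a * (j + 1) < (j + 1) * (j + 1) := Nat.mul_lt_mul_of_pos_right hcon (by omega)
    omega
  have hakN : a * k ≤ N := by
    have e1 : a * k ≤ a * j := Nat.mul_le_mul_left _ hkj
    have e2 : a * (j + 1) = a * j + a := by ring
    omega
  have hbk : b * k ≤ N + j - 1 := (Nat.mul_le_mul_left _ hkj).trans hb1
  have hcard : ((I N j).card : ℝ) = (b : ℝ) - a := by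
    rw [card_I, ← ha, ← hb, Nat.cast_sub hab]
  rw [Ps_eq N j k m hk hkj hm, ← ha, ← hb, hcard]
  by_cases hc : N.Coprime (k * m)
  · have c1 := h1 N (by omega) (k * m) (Nat.mul_pos hk hm) hkm hc (N - a * k) (Nat.sub_le _ _)
    have c2 := h1 N (by omega) (k * m) (Nat.mul_pos hk hm) hkm hc (N - b * k) (Nat.sub_le _ _)
    have hφ1 : (1 : ℝ) ≤ Nat.totient (k * m) := by exact_mod_cast Nat.totient_pos.2 (Nat.mul_pos hk hm)
    rw [nu, if_pos hc]
    have e1 : ((N - a * k : ℕ) : ℝ) = N - a * k := by rw [Nat.cast_sub hakN]; push_cast; ring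
    have e2 : |((N - b * k : ℕ) : ℝ) - ((N : ℝ) - b * k)| ≤ j := by
      rcases le_total (b * k) N with h | h
      · rw [Nat.cast_sub h]; push_cast; simp
      · rw [Nat.sub_eq_zero_of_le h]
        have h5 : (b : ℝ) * k ≤ N + j := by
          have : b * k ≤ N + j := by omega
          exact_mod_cast this
        have h6 : (N : ℝ) ≤ b * k := by exact_mod_cast h
        rw [Nat.cast_zero, abs_le]
        constructor <;> linarith
    set φ := (Nat.totient (k * m) : ℝ) with hφ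
    have hφ0 : 0 < φ := by linarith
    have e3 : |((N - b * k : ℕ) : ℝ) / φ - ((N : ℝ) - b * k) / φ| ≤ j := by
      rw [← sub_div, abs_div, abs_of_pos hφ0]
      exact (div_le_self (abs_nonneg _) hφ1).trans e2
    rw [e1] at c1
    have e4 : (k : ℝ) / φ * ((b : ℝ) - a) = ((N : ℝ) - a * k) / φ - ((N : ℝ) - b * k) / φ := by
      field_simp; ring
    rw [e4]
    rw [abs_le] at c1 c2 e3 ⊢
    constructor <;> linarith [c1.1, c1.2, c2.1, c2.2, e3.1, e3.2]
  · rw [nu, if_neg hc, zero_mul, sub_zero]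
    have c1 := ncop N (k * m) (N - a * k) (by omega) (Nat.sub_le _ _) hc
    have c2 := ncop N (k * m) (N - b * k) (by omega) (Nat.sub_le _ _) hc
    have c3 := P_nonneg N (k * m) (N - a * k)
    have c4 := P_nonneg N (k * m) (N - b * k)
    have c5 : 0 ≤ (j : ℝ) := Nat.cast_nonneg _
    rw [abs_le]
    constructor <;> linarith

end Pool.Agent.K3h95.LL
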