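import Mathlib
import Pool.Agent.K3h95.LL.A2
import Pool.Agent.H382R2.SqFree

/-! The sums over `q` with `j` multiples below `N` of `μ(q) μ(q k) Λ(N - q k)` (helper95). -/

set_option autoImplicit false

open Finset

open scoped ArithmeticFunction.vonMangoldt

namespace Pool.Agent.K3h95.LL

open Pool.Agent.TH445.OI

/-- the Moebius function -/
noncomputable def mu (n : ℕ) : ℝ := ((ArithmeticFunction.moebius n : ℤ) : ℝ)

lemma abs_mu_le (n : ℕ) : |mu n| ≤ 1 := SG.abs_moebius_real_le n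

lemma mu_sq_nonneg (n : ℕ) : 0 ≤ mu n ^ 2 := sq_nonneg _

lemma mu_sq_le (n : ℕ) : mu n ^ 2 ≤ 1 := by
  have := abs_mu_le n
  rw [← sq_abs]
  exact pow_le_one₀ (abs_nonneg _) this

/-- `1` if `q` and `k` are coprime, and `0` otherwise -/
noncomputable def co (q k : ℕ) : ℝ := if q.Coprime k then 1 else 0

lemma co_nonneg (q k : ℕ) : 0 ≤ co q k := by unfold co; split_ifs <;> norm_num

lemma co_le (q k : ℕ) : co q k ≤ 1 := by unfold co; split_ifs <;> norm_num

lemma mu_mul_mu (q k : ℕ) : mu q * mu (q * k) = mu k * co q k * mu q ^ 2 := by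
  unfold co
  split_ifs with h
  · unfold mu
    rw [ArithmeticFunction.isMultiplicative_moebius.map_mul_of_coprime h]
    push_cast
    ring
  · have h1 : mu (q * k) = 0 := by
      unfold mu
      rw [ArithmeticFunction.moebius_eq_zero_of_not_squarefree]
      · simp
      · intro hs
        exact h (Nat.coprime_of_squarefree_mul hs)
    rw [h1]; ring

lemma co_eq (q k : ℕ) (hk : 1 ≤ k) : co q k = ∑ e ∈ k.divisors, if e ∣ q then mu e else 0 := by
  have h1 : ∑ e ∈ k.divisors, (if e ∣ q then mu e else 0) = ∑ e ∈ (Nat.gcd q k).divisors, mu e := by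
    rw [← sum_filter]
    apply sum_congr _ (fun _ _ => rfl)
    ext e
    rw [mem_filter, Nat.mem_divisors, Nat.mem_divisors]
    constructor
    · rintro ⟨⟨h1, h2⟩, h3⟩
      exact ⟨Nat.dvd_gcd h3 h1, Nat.gcd_ne_zero_right h2⟩
    · rintro ⟨h1, h2⟩
      exact ⟨⟨h1.trans (Nat.gcd_dvd_right _ _), by omega⟩, h1.trans (Nat.gcd_dvd_left _ _)⟩
  have h2 : (∑ d ∈ (Nat.gcd q k).divisors, (ArithmeticFunction.moebius d : ℤ)) = if Nat.gcd q k = 1 then 1 else 0 := by
    have := congrArg (fun f => f (Nat.gcd q k)) ArithmeticFunction.moebius_mul_coe_zeta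
    simp only [ArithmeticFunction.coe_mul_zeta_apply, ArithmeticFunction.one_apply] at this
    exact this
  have h3 := congrArg (fun z : ℤ => (z : ℝ)) h2
  push_cast at h3
  rw [h1]
  unfold co mu
  rw [h3]

lemma mu_sq_eq (N q : ℕ) (hq : 1 ≤ q) (hqN : q ≤ N) : mu q ^ 2 = ∑ d ∈ Icc 1 N, if d ^ 2 ∣ q then mu d else 0 := by
  unfold mu
  rw [SG.moebius_sq_eq q (by omega)]
  apply sum_subset
  · exact Icc_subset_Icc_right hqN
  · intro d hd hd2
    rw [mem_Icc] at hd hd2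
    rw [if_neg]
    intro h
    have h1 := Nat.le_of_dvd (by omega) h
    have h2 : d ≤ d ^ 2 := Nat.le_self_pow (by norm_num) d
    omega

/-- the sum over `q ∈ I N j` of `μ(q) μ(q k) Λ(N - q k)` -/
noncomputable def V (N j k : ℕ) : ℝ := ∑ q ∈ I N j, mu q * mu (q * k) * Λ (N - q * k)

/-- the density of `V` -/
noncomputable def w (N R k : ℕ) : ℝ :=
  mu k * ∑ e ∈ k.divisors, ∑ d ∈ Icc 1 R, mu e * mu d * nu N k (Nat.lcm e (d ^ 2))

lemma I_pos {N j q : ℕ} (hj : 1 ≤ j) (h : q ∈ I N j) : 1 ≤ q ∧ q ≤ N := by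
  rw [mem_I hj] at h
  constructor
  · by_contra hcon
    have : q = 0 := by omega
    subst this
    omega
  · calc q = q * 1 := (mul_one q).symm
      _ ≤ q * j := Nat.mul_le_mul_left _ hj
      _ ≤ N := h.2.le

lemma lam_le (N k q : ℕ) (hN : 1 ≤ N) : Λ (N - q * k) ≤ Real.log N := by
  refine ArithmeticFunction.vonMangoldt_le_log.trans ?_
  rcases Nat.eq_zero_or_pos (N - q * k) with h | h
  · rw [h]; simp [Real.log_nonneg (show (1 : ℝ) ≤ N by exact_mod_cast hN)]
  · exact Real.log_le_log (by exact_mod_cast h) (by exact_mod_cast Nat.sub_le _ _)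

/-- the multiples of large squares -/
lemma tail_le (N j R : ℕ) (hj : 1 ≤ j) (hR : 1 ≤ R) :
    ∑ q ∈ I N j, ∑ d ∈ Ioc R N, (if d ^ 2 ∣ q then (1 : ℝ) else 0) ≤ N / R := by
  rw [sum_comm]
  have h1 : ∀ d ∈ Ioc R N, ∑ q ∈ I N j, (if d ^ 2 ∣ q then (1 : ℝ) else 0) ≤ N * (1 / (d : ℝ) ^ 2) := by
    intro d hd
    rw [mem_Ioc] at hd
    have hd0 : 0 < d := by omega
    calc ∑ q ∈ I N j, (if d ^ 2 ∣ q then (1 : ℝ) else 0) ≤ ∑ q ∈ Ioc 0 N, (if d ^ 2 ∣ q then (1 : ℝ) else 0) := by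
          apply sum_le_sum_of_subset_of_nonneg
          · intro q hq
            have := I_pos hj hq
            rw [mem_Ioc]; omega
          · intro _ _ _; split_ifs <;> norm_num
      _ = (((Ioc 0 N).filter (fun q => d ^ 2 ∣ q)).card : ℝ) := by
          rw [sum_ite, sum_const_zero, add_zero, sum_const, nsmul_eq_mul, mul_one]
      _ = ((N / d ^ 2 : ℕ) : ℝ) := by rw [Nat.Ioc_filter_dvd_card_eq_div]
      _ ≤ (N : ℝ) / ((d ^ 2 : ℕ) : ℝ) := Nat.cast_div_le
      _ = _ := by push_cast; ring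
  refine (sum_le_sum h1).trans ?_
  rw [← mul_sum, div_eq_mul_one_div]
  apply mul_le_mul_of_nonneg_left _ (Nat.cast_nonneg _)
  -- the tail of the sum of the inverse squares
  have h2 : ∀ M : ℕ, R ≤ M → ∑ d ∈ Ioc R M, 1 / (d : ℝ) ^ 2 ≤ 1 / (R : ℝ) - 1 / M := by
    intro M hM
    induction M, hM using Nat.le_induction with
    | base => simp
    | succ M hM ih =>
      rw [sum_Ioc_succ_top hM]
      have hM0 : (0 : ℝ) < M := by
        have : 0 < M := by omega
        exact_mod_cast this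
      have h3 : 1 / ((M + 1 : ℕ) : ℝ) ^ 2 ≤ 1 / (M : ℝ) - 1 / ((M + 1 : ℕ) : ℝ) := by
        push_cast
        rw [div_sub_div _ _ hM0.ne' (by positivity), div_le_div_iff₀ (by positivity) (by positivity)]
        nlinarith
      linarith
  rcases le_total R N with h | h
  · have := h2 N h
    have h4 : (0 : ℝ) ≤ 1 / N := by positivity
    linarith
  · rw [Ioc_eq_empty_of_le h, sum_empty]; positivity

theorem V_asym (E K : ℕ) : ∃ N0 : ℕ, 3 ≤ N0 ∧ ∀ N : ℕ, N0 ≤ N → ∀ R : ℕ, Real.log N ^ (E + 1) ≤ R →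
    (R : ℝ) ≤ 2 * Real.log N ^ (E + 1) → ∀ j k : ℕ, 1 ≤ k → k ≤ j → (j : ℝ) ≤ Real.log N ^ K →
    |V N j k - w N R k * ((I N j).card : ℝ)| ≤ 2 * (N / Real.log N ^ E) := by
  obtain ⟨N1, hN1, h1⟩ := Ps_asym (K + 2 * E + 2) (2 * K + 2 * E + 4)
  obtain ⟨N2, h2⟩ := evN _ (Real.tendsto_log_atTop.eventually_ge_atTop 6)
  obtain ⟨N3, h3⟩ := evN _ (ev_pow (E + 1) 2 1 one_pos)
  refine ⟨N1 + N2 + N3, by omega, fun N hN R hR1 hR2 j k hk hkj hjL => ?_⟩
  have hN3 : 3 ≤ N := by omega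
  have hN0 : (0 : ℝ) < N := by exact_mod_cast (by omega : 0 < N)
  have hj : 1 ≤ j := hk.trans hkj
  set L := Real.log N with hL
  have hL6 : 6 ≤ L := h2 N (by omega)
  have hL0 : 0 < L := by linarith
  have hL1 : 1 ≤ L := by linarith
  have g3 := h3 N (by omega)
  rw [← hL, Real.rpow_one] at g3
  have hR0 : 1 ≤ R := by
    have : (1 : ℝ) ≤ R := (one_le_pow₀ hL1).trans hR1
    exact_mod_cast this
  have hRN : R ≤ N := by exact_mod_cast hR2.trans g3
  have hRpos : (0 : ℝ) < R := by exact_mod_cast hR0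
  have hkK : (k : ℝ) ≤ L ^ K := le_trans (by exact_mod_cast hkj) hjL
  -- the expansion
  have hexp : V N j k = mu k * ∑ e ∈ k.divisors, ∑ d ∈ Icc 1 R, mu e * mu d * Ps N j k (Nat.lcm e (d ^ 2)) +
      ∑ q ∈ I N j, mu k * co q k * (∑ d ∈ Ioc R N, if d ^ 2 ∣ q then mu d else 0) * Λ (N - q * k) := by
    have e1 : ∀ q ∈ I N j, mu q * mu (q * k) * Λ (N - q * k) =
        mu k * ∑ e ∈ k.divisors, ∑ d ∈ Icc 1 R, mu e * mu d *
          (if Nat.lcm e (d ^ 2) ∣ q then Λ (N - q * k) else 0) +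
        mu k * co q k * (∑ d ∈ Ioc R N, if d ^ 2 ∣ q then mu d else 0) * Λ (N - q * k) := by
      intro q hq
      obtain ⟨hq1, hq2⟩ := I_pos hj hq
      rw [mu_mul_mu, mu_sq_eq N q hq1 hq2]
      have e2 : ∑ d ∈ Icc 1 N, (if d ^ 2 ∣ q then mu d else 0) =
          ∑ d ∈ Icc 1 R, (if d ^ 2 ∣ q then mu d else 0) + ∑ d ∈ Ioc R N, (if d ^ 2 ∣ q then mu d else 0) := by
        rw [← sum_union]
        · apply sum_congr _ (fun _ _ => rfl)
          ext d
          rw [mem_union, mem_Icc, mem_Icc, mem_Ioc]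
          omega
        · rw [disjoint_left]
          intro d hd hd2
          rw [mem_Icc] at hd
          rw [mem_Ioc] at hd2
          omega
      rw [e2, mul_add, add_mul]
      congr 1
      nth_rewrite 1 [co_eq q k hk]
      rw [mul_assoc, mul_assoc, sum_mul]
      congr 1
      apply sum_congr rfl
      intro e _
      rw [sum_mul, mul_sum]
      apply sum_congr rfl
      intro d _
      by_cases h5 : e ∣ q
      · by_cases h6 : d ^ 2 ∣ q
        · rw [if_pos h5, if_pos h6, if_pos (Nat.lcm_dvd h5 h6)]; ring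
        · rw [if_neg h6, if_neg (fun h => h6 ((Nat.dvd_lcm_right _ _).trans h))]; ring
      · rw [if_neg h5, if_neg (fun h => h5 ((Nat.dvd_lcm_left _ _).trans h))]; ring
    unfold V
    rw [sum_congr rfl e1, sum_add_distrib]
    congr 1
    rw [← mul_sum, sum_comm]
    congr 1
    apply sum_congr rfl
    intro e _
    rw [sum_comm]
    apply sum_congr rfl
    intro d _
    rw [← mul_sum]
    unfold Ps
    rw [sum_filter]
  -- the tail
  have htail : |∑ q ∈ I N j, mu k * co q k * (∑ d ∈ Ioc R N, if d ^ 2 ∣ q then mu d else 0) * Λ (N - q * k)| ≤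
      N / L ^ E := by
    have e1 : |∑ q ∈ I N j, mu k * co q k * (∑ d ∈ Ioc R N, if d ^ 2 ∣ q then mu d else 0) * Λ (N - q * k)| ≤
        ∑ q ∈ I N j, (∑ d ∈ Ioc R N, (if d ^ 2 ∣ q then (1 : ℝ) else 0)) * L := by
      refine (abs_sum_le_sum_abs _ _).trans (sum_le_sum fun q hq => ?_)
      rw [abs_mul, abs_mul, abs_mul, abs_of_nonneg (ArithmeticFunction.vonMangoldt_nonneg (n := N - q * k)),
        abs_of_nonneg (co_nonneg q k)]
      have e2 : |∑ d ∈ Ioc R N, (if d ^ 2 ∣ q then mu d else 0)| ≤ ∑ d ∈ Ioc R N, (if d ^ 2 ∣ q then (1 : ℝ) else 0) := by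
        refine (abs_sum_le_sum_abs _ _).trans (sum_le_sum fun d _ => ?_)
        split_ifs
        · exact abs_mu_le d
        · simp
      have e3 : |mu k| * co q k ≤ 1 := by
        have := mul_le_mul (abs_mu_le k) (co_le q k) (co_nonneg q k) zero_le_one
        linarith
      have e4 := lam_le N k q (by omega)
      have e5 : (0 : ℝ) ≤ ∑ d ∈ Ioc R N, (if d ^ 2 ∣ q then (1 : ℝ) else 0) :=
        sum_nonneg fun d _ => by split_ifs <;> norm_num
      have e6 : |mu k| * co q k * |∑ d ∈ Ioc R N, (if d ^ 2 ∣ q then mu d else 0)| ≤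
          1 * ∑ d ∈ Ioc R N, (if d ^ 2 ∣ q then (1 : ℝ) else 0) :=
        mul_le_mul e3 e2 (abs_nonneg _) zero_le_one
      rw [one_mul] at e6
      exact mul_le_mul e6 e4 ArithmeticFunction.vonMangoldt_nonneg e5
    refine e1.trans ?_
    rw [← sum_mul]
    have e2 := tail_le N j R hj hR0
    calc (∑ q ∈ I N j, ∑ d ∈ Ioc R N, (if d ^ 2 ∣ q then (1 : ℝ) else 0)) * L ≤ N / R * L :=
          mul_le_mul_of_nonneg_right e2 hL0.le
      _ ≤ N / L ^ (E + 1) * L := by
          apply mul_le_mul_of_nonneg_right _ hL0.le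
          exact div_le_div_of_nonneg_left hN0.le (by positivity) hR1
      _ = N / L ^ E := by rw [pow_succ]; field_simp
  -- the main part
  have hmain : |mu k * ∑ e ∈ k.divisors, ∑ d ∈ Icc 1 R, mu e * mu d * Ps N j k (Nat.lcm e (d ^ 2)) -
      w N R k * ((I N j).card : ℝ)| ≤ N / L ^ E := by
    have e1 : mu k * ∑ e ∈ k.divisors, ∑ d ∈ Icc 1 R, mu e * mu d * Ps N j k (Nat.lcm e (d ^ 2)) -
        w N R k * ((I N j).card : ℝ) = mu k * ∑ e ∈ k.divisors, ∑ d ∈ Icc 1 R, mu e * mu d *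
          (Ps N j k (Nat.lcm e (d ^ 2)) - nu N k (Nat.lcm e (d ^ 2)) * ((I N j).card : ℝ)) := by
      unfold w
      rw [mul_assoc, ← mul_sub, sum_mul, ← sum_sub_distrib]
      congr 1
      apply sum_congr rfl
      intro e _
      rw [sum_mul, ← sum_sub_distrib]
      apply sum_congr rfl
      intro d _
      ring
    rw [e1, abs_mul]
    have e2 : |∑ e ∈ k.divisors, ∑ d ∈ Icc 1 R, mu e * mu d *
        (Ps N j k (Nat.lcm e (d ^ 2)) - nu N k (Nat.lcm e (d ^ 2)) * ((I N j).card : ℝ))| ≤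
        ∑ e ∈ k.divisors, ∑ d ∈ Icc 1 R, 3 * (N / L ^ (K + 2 * E + 2)) := by
      refine (abs_sum_le_sum_abs _ _).trans (sum_le_sum fun e he => ?_)
      refine (abs_sum_le_sum_abs _ _).trans (sum_le_sum fun d hd => ?_)
      have he1 : 1 ≤ e := Nat.pos_of_mem_divisors he
      have he2 : e ≤ k := Nat.divisor_le he
      rw [mem_Icc] at hd
      have hd1 : 1 ≤ d ^ 2 := Nat.one_le_pow _ _ hd.1
      have hlcm : Nat.lcm e (d ^ 2) ≤ k * R ^ 2 := by
        refine (Nat.le_of_dvd (Nat.mul_pos he1 hd1) (Nat.lcm_dvd_mul _ _)).trans ?_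
        exact Nat.mul_le_mul he2 (Nat.pow_le_pow_left hd.2 2)
      have hmod : ((k * Nat.lcm e (d ^ 2) : ℕ) : ℝ) ≤ L ^ (2 * K + 2 * E + 4) := by
        have f1 : ((k * Nat.lcm e (d ^ 2) : ℕ) : ℝ) ≤ (k : ℝ) * (k * R ^ 2) := by
          exact_mod_cast Nat.mul_le_mul_left k hlcm
        have f2 : (R : ℝ) ≤ L ^ (E + 2) := by
          refine hR2.trans ?_
          rw [pow_succ L (E + 1), mul_comm]
          exact mul_le_mul_of_nonneg_left (by linarith) (by positivity)
        calc ((k * Nat.lcm e (d ^ 2) : ℕ) : ℝ) ≤ (k : ℝ) * (k * R ^ 2) := f1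
          _ ≤ L ^ K * (L ^ K * (L ^ (E + 2)) ^ 2) := by gcongr
          _ = L ^ (2 * K + 2 * E + 4) := by rw [← pow_mul, ← pow_add, ← pow_add]; congr 1; ring
      have f3 := h1 N (by omega) j k (Nat.lcm e (d ^ 2)) hk hkj
        (Nat.lcm_pos he1 hd1) (hjL.trans (pow_le_pow_right₀ hL1 (by omega))) hmod
      rw [abs_mul, abs_mul]
      have f4 : |mu e| * |mu d| ≤ 1 := by
        have := mul_le_mul (abs_mu_le e) (abs_mu_le d) (abs_nonneg _) zero_le_one
        linarith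
      calc |mu e| * |mu d| * |Ps N j k (Nat.lcm e (d ^ 2)) - nu N k (Nat.lcm e (d ^ 2)) * ((I N j).card : ℝ)| ≤
            1 * (3 * (N / L ^ (K + 2 * E + 2))) := mul_le_mul f4 f3 (abs_nonneg _) zero_le_one
        _ = _ := one_mul _
    have e3 : ∑ e ∈ k.divisors, ∑ d ∈ Icc 1 R, 3 * (N / L ^ (K + 2 * E + 2)) =
        (k.divisors.card : ℝ) * (R * (3 * (N / L ^ (K + 2 * E + 2)))) := by
      simp only [sum_const, Nat.card_Icc, Nat.add_sub_cancel, nsmul_eq_mul]
    have e4 : (k.divisors.card : ℝ) ≤ L ^ K := le_trans (by exact_mod_cast Nat.card_divisors_le_self k) hkK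
    have hpos : 0 < N / L ^ (K + 2 * E + 2) := by positivity
    calc |mu k| * |∑ e ∈ k.divisors, ∑ d ∈ Icc 1 R, mu e * mu d *
          (Ps N j k (Nat.lcm e (d ^ 2)) - nu N k (Nat.lcm e (d ^ 2)) * ((I N j).card : ℝ))| ≤
          1 * ((k.divisors.card : ℝ) * (R * (3 * (N / L ^ (K + 2 * E + 2))))) := by
          rw [e3] at e2
          exact mul_le_mul (abs_mu_le k) e2 (abs_nonneg _) zero_le_one
      _ ≤ 1 * (L ^ K * ((2 * L ^ (E + 1)) * (3 * (N / L ^ (K + 2 * E + 2))))) := by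
          apply mul_le_mul_of_nonneg_left _ zero_le_one
          apply mul_le_mul e4 _ (by positivity) (by positivity)
          exact mul_le_mul_of_nonneg_right hR2 (by positivity)
      _ = 6 * (N / L ^ (E + 1)) := by
          have : L ^ (K + 2 * E + 2) = L ^ K * L ^ (E + 1) * L ^ (E + 1) := by
            rw [← pow_add, ← pow_add]; congr 1; ring
          rw [this]; field_simp; ring
      _ ≤ L * (N / L ^ (E + 1)) := mul_le_mul_of_nonneg_right hL6 (by positivity)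
      _ = N / L ^ E := by rw [pow_succ]; field_simp
  rw [hexp]
  have := abs_add_le (mu k * ∑ e ∈ k.divisors, ∑ d ∈ Icc 1 R, mu e * mu d * Ps N j k (Nat.lcm e (d ^ 2)) -
      w N R k * ((I N j).card : ℝ))
    (∑ q ∈ I N j, mu k * co q k * (∑ d ∈ Ioc R N, if d ^ 2 ∣ q then mu d else 0) * Λ (N - q * k))
  have e9 : ∀ x y z : ℝ, x + y - z = (x - z) + y := fun x y z => by ring
  rw [e9]
  linarith

end Pool.Agent.K3h95.LL
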