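import Mathlib
import Pool.Agent.K3h95.LL.A3

/-! The term `k = p`, a prime (helper95). -/

set_option autoImplicit false

open Finset

open scoped ArithmeticFunction.vonMangoldt

namespace Pool.Agent.K3h95.LL

open Pool.Agent.TH445.OI

lemma tele (M : ℕ) : ∑ n ∈ Ioc 10 M, 1 / ((n : ℝ) * ((n : ℝ) - 1)) ≤ 1 / 10 := by
  rcases Nat.lt_or_ge M 10 with h | h
  · rw [Ioc_eq_empty_of_le h.le, sum_empty]; norm_num
  · have h2 : ∀ M : ℕ, 10 ≤ M → ∑ n ∈ Ioc 10 M, 1 / ((n : ℝ) * ((n : ℝ) - 1)) ≤ 1 / 10 - 1 / (M : ℝ) := by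
      intro M hM
      induction M, hM using Nat.le_induction with
      | base => norm_num
      | succ M hM ih =>
        rw [sum_Ioc_succ_top hM]
        have hM0 : (10 : ℝ) ≤ M := by exact_mod_cast hM
        have h3 : 1 / (((M + 1 : ℕ) : ℝ) * (((M + 1 : ℕ) : ℝ) - 1)) = 1 / (M : ℝ) - 1 / ((M + 1 : ℕ) : ℝ) := by
          push_cast
          have hM1 : (M : ℝ) ≠ 0 := by linarith
          have hM2 : (M : ℝ) + 1 ≠ 0 := by linarith
          rw [add_sub_cancel_right, div_sub_div _ _ hM1 hM2]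
          congr 1 <;> ring
        linarith
    have := h2 M h
    have h4 : (0 : ℝ) ≤ 1 / M := by positivity
    linarith

lemma prime_sum (R : ℕ) : ∑ l ∈ (Icc 1 R).filter Nat.Prime, 1 / ((l : ℝ) * ((l : ℝ) - 1)) ≤ 0.85 := by
  have h1 : (Icc 1 R).filter Nat.Prime ⊆ ({2, 3, 5, 7} : Finset ℕ) ∪ Ioc 10 R := by
    intro l hl
    rw [mem_filter, mem_Icc] at hl
    rw [mem_union, mem_Ioc]
    rcases Nat.lt_or_ge 10 l with h | h
    · exact Or.inr ⟨h, hl.1.2⟩
    · left
      have h2 := hl.2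
      interval_cases l <;> first | (norm_num at h2; done) | simp
  have h2 : ∑ l ∈ (Icc 1 R).filter Nat.Prime, 1 / ((l : ℝ) * ((l : ℝ) - 1)) ≤
      ∑ l ∈ ({2, 3, 5, 7} : Finset ℕ) ∪ Ioc 10 R, 1 / ((l : ℝ) * ((l : ℝ) - 1)) := by
    apply sum_le_sum_of_subset_of_nonneg h1
    intro l hl _
    have : (2 : ℝ) ≤ l := by
      rw [mem_union, mem_Ioc] at hl
      rcases hl with h | h
      · have : 2 ≤ l := by
          simp only [mem_insert, mem_singleton] at h
          omega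
        exact_mod_cast this
      · have : 2 ≤ l := by omega
        exact_mod_cast this
    have : 0 < (l : ℝ) - 1 := by linarith
    positivity
  rw [sum_union (by
    rw [disjoint_left]
    intro l hl hl2
    rw [mem_Ioc] at hl2
    simp only [mem_insert, mem_singleton] at hl
    omega)] at h2
  have h3 := tele R
  have h4 : ∑ l ∈ ({2, 3, 5, 7} : Finset ℕ), 1 / ((l : ℝ) * ((l : ℝ) - 1)) ≤ 0.75 := by
    rw [sum_insert (by decide), sum_insert (by decide), sum_insert (by decide), sum_singleton]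
    norm_num
  linarith

lemma ind_low (N R p q : ℕ) (hp : p.Prime) (hq : 1 ≤ q) (hqN : q ≤ N) :
    1 - (if p ∣ q then (1 : ℝ) else 0) - ∑ l ∈ (Icc 1 R).filter Nat.Prime, (if l ^ 2 ∣ q then (1 : ℝ) else 0) -
      ∑ d ∈ Ioc R N, (if d ^ 2 ∣ q then (1 : ℝ) else 0) ≤ co q p * mu q ^ 2 := by
  have h1 : (0 : ℝ) ≤ ∑ l ∈ (Icc 1 R).filter Nat.Prime, (if l ^ 2 ∣ q then (1 : ℝ) else 0) :=
    sum_nonneg fun _ _ => by split_ifs <;> norm_num
  have h2 : (0 : ℝ) ≤ ∑ d ∈ Ioc R N, (if d ^ 2 ∣ q then (1 : ℝ) else 0) :=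
    sum_nonneg fun _ _ => by split_ifs <;> norm_num
  have h3 : 0 ≤ co q p * mu q ^ 2 := mul_nonneg (co_nonneg _ _) (sq_nonneg _)
  by_cases hpq : p ∣ q
  · rw [if_pos hpq]; linarith
  · rw [if_neg hpq]
    have h4 : co q p = 1 := by
      unfold co
      rw [if_pos ((Nat.Prime.coprime_iff_not_dvd hp).2 hpq).symm]
    by_cases hs : Squarefree q
    · have h5 : mu q ^ 2 = 1 := by
        unfold mu
        have := congrArg (fun z : ℤ => (z : ℝ)) (ArithmeticFunction.moebius_sq (n := q))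
        push_cast at this
        rw [this, if_pos hs]
      rw [h4, h5]; linarith
    · rw [Nat.squarefree_iff_prime_squarefree] at hs
      push Not at hs
      obtain ⟨l, hl, hlq⟩ := hs
      rw [← sq] at hlq
      rcases Nat.lt_or_ge R l with h | h
      · have h6 : l ∈ Ioc R N := by
          rw [mem_Ioc]
          refine ⟨h, ?_⟩
          have := Nat.le_of_dvd (by omega) hlq
          have h7 : l ≤ l ^ 2 := Nat.le_self_pow (by norm_num) l
          omega
        have h7 := single_le_sum (f := fun d => (if d ^ 2 ∣ q then (1 : ℝ) else 0))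
          (fun d _ => by split_ifs <;> norm_num) h6
        simp only [if_pos hlq] at h7
        linarith
      · have h6 : l ∈ (Icc 1 R).filter Nat.Prime := mem_filter.2 ⟨mem_Icc.2 ⟨hl.one_lt.le, h⟩, hl⟩
        have h7 := single_le_sum (f := fun d => (if d ^ 2 ∣ q then (1 : ℝ) else 0))
          (fun d _ => by split_ifs <;> norm_num) h6
        simp only [if_pos hlq] at h7
        linarith

theorem Vp (E K : ℕ) : ∃ N0 : ℕ, 3 ≤ N0 ∧ ∀ N : ℕ, N0 ≤ N → ∀ R : ℕ, Real.log N ^ (E + 1) ≤ R →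
    (R : ℝ) ≤ 2 * Real.log N ^ (E + 1) → ∀ j p : ℕ, p.Prime → ¬ p ∣ N → 50 ≤ p → p ≤ j → (j : ℝ) ≤ Real.log N ^ K →
    V N j p ≤ -(1 / 10) * ((I N j).card : ℝ) + 4 * (N / Real.log N ^ E) := by
  obtain ⟨N1, hN1, h1⟩ := Ps_asym (2 * E + 2) (2 * K + 2 * E + 4)
  obtain ⟨N2, h2⟩ := evN _ (Real.tendsto_log_atTop.eventually_ge_atTop 6)
  refine ⟨N1 + N2, by omega, fun N hN R hR1 hR2 j p hp hpN hp50 hpj hjL => ?_⟩
  have hN3 : 3 ≤ N := by omega
  have hN0 : (0 : ℝ) < N := by exact_mod_cast (by omega : 0 < N)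
  have hj : 1 ≤ j := hp.one_lt.le.trans hpj
  set L := Real.log N with hL
  have hL6 : 6 ≤ L := h2 N (by omega)
  have hL0 : 0 < L := by linarith
  have hL1 : 1 ≤ L := by linarith
  have hR0 : 1 ≤ R := by
    have : (1 : ℝ) ≤ R := (one_le_pow₀ hL1).trans hR1
    exact_mod_cast this
  have hRpos : (0 : ℝ) < R := by exact_mod_cast hR0
  have hpK : (p : ℝ) ≤ L ^ K := le_trans (by exact_mod_cast hpj) hjL
  have hp50' : (50 : ℝ) ≤ p := by exact_mod_cast hp50
  have hcop : N.Coprime p := ((Nat.Prime.coprime_iff_not_dvd hp).2 hpN).symm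
  set err := 3 * (N / L ^ (2 * E + 2)) with herr
  have hjbig : (j : ℝ) ≤ L ^ (2 * K + 2 * E + 4) := hjL.trans (pow_le_pow_right₀ hL1 (by omega))
  -- the three kinds of sums
  have c1 := h1 N (by omega) j p 1 hp.one_lt.le hpj le_rfl hjbig (by
    rw [mul_one]; exact hpK.trans (pow_le_pow_right₀ hL1 (by omega)))
  have c2 := h1 N (by omega) j p p hp.one_lt.le hpj hp.one_lt.le hjbig (by
    push_cast
    calc (p : ℝ) * p ≤ L ^ K * L ^ K := by gcongr
      _ = L ^ (2 * K) := by rw [← pow_add]; congr 1; ring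
      _ ≤ _ := pow_le_pow_right₀ hL1 (by omega))
  have c3 : ∀ l ∈ (Icc 1 R).filter Nat.Prime, |Ps N j p (l ^ 2) - nu N p (l ^ 2) * ((I N j).card : ℝ)| ≤ err := by
    intro l hl
    rw [mem_filter, mem_Icc] at hl
    have f2 : (R : ℝ) ≤ L ^ (E + 2) := by
      refine hR2.trans ?_
      rw [pow_succ L (E + 1), mul_comm]
      exact mul_le_mul_of_nonneg_left (by linarith) (by positivity)
    have hlR : (l : ℝ) ≤ L ^ (E + 2) := le_trans (by exact_mod_cast hl.1.2) f2
    refine h1 N (by omega) j p (l ^ 2) hp.one_lt.le hpj (Nat.one_le_pow _ _ hl.1.1) hjbig ?_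
    push_cast
    calc (p : ℝ) * (l : ℝ) ^ 2 ≤ L ^ K * (L ^ (E + 2)) ^ 2 := by gcongr
      _ = L ^ (K + 2 * E + 4) := by rw [← pow_mul, ← pow_add]; congr 1; ring
      _ ≤ _ := pow_le_pow_right₀ hL1 (by omega)
  -- `V` is minus a sum over squarefree `q`
  have hmup : mu p = -1 := by
    unfold mu
    rw [ArithmeticFunction.moebius_apply_prime hp]
    norm_num
  have e1 : V N j p = -∑ q ∈ I N j, co q p * mu q ^ 2 * Λ (N - q * p) := by
    unfold V
    rw [← sum_neg_distrib]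
    apply sum_congr rfl
    intro q _
    rw [mu_mul_mu, hmup]
    ring
  have e2 : Ps N j p 1 - Ps N j p p - ∑ l ∈ (Icc 1 R).filter Nat.Prime, Ps N j p (l ^ 2) -
      L * ∑ q ∈ I N j, ∑ d ∈ Ioc R N, (if d ^ 2 ∣ q then (1 : ℝ) else 0) ≤
      ∑ q ∈ I N j, co q p * mu q ^ 2 * Λ (N - q * p) := by
    have f1 : ∀ m : ℕ, Ps N j p m = ∑ q ∈ I N j, (if m ∣ q then (1 : ℝ) else 0) * Λ (N - q * p) := by
      intro m
      unfold Ps
      rw [sum_filter]
      apply sum_congr rfl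
      intro q _
      split_ifs <;> ring
    have f2 : Ps N j p 1 = ∑ q ∈ I N j, Λ (N - q * p) := by
      rw [f1]
      apply sum_congr rfl
      intro q _
      rw [if_pos (one_dvd _), one_mul]
    rw [f2, f1 p]
    simp only [f1]
    rw [sum_comm, mul_sum, ← sum_sub_distrib, ← sum_sub_distrib, ← sum_sub_distrib]
    apply sum_le_sum
    intro q hq
    obtain ⟨hq1, hq2⟩ := I_pos hj hq
    have f3 := ind_low N R p q hp hq1 hq2
    have f4 : 0 ≤ Λ (N - q * p) := ArithmeticFunction.vonMangoldt_nonneg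
    have f5 := lam_le N p q (by omega)
    rw [← hL] at f5
    have f6 : (0 : ℝ) ≤ ∑ d ∈ Ioc R N, (if d ^ 2 ∣ q then (1 : ℝ) else 0) :=
      sum_nonneg fun _ _ => by split_ifs <;> norm_num
    have f7 := mul_le_mul_of_nonneg_right f3 f4
    rw [← sum_mul]
    have f8 := mul_le_mul_of_nonneg_left f5 f6
    linarith
  have e3 := tail_le N j R hj hR0
  have e4 : L * ∑ q ∈ I N j, ∑ d ∈ Ioc R N, (if d ^ 2 ∣ q then (1 : ℝ) else 0) ≤ N / L ^ E := by
    calc L * ∑ q ∈ I N j, ∑ d ∈ Ioc R N, (if d ^ 2 ∣ q then (1 : ℝ) else 0) ≤ L * (N / R) :=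
          mul_le_mul_of_nonneg_left e3 hL0.le
      _ ≤ L * (N / L ^ (E + 1)) := by
          apply mul_le_mul_of_nonneg_left _ hL0.le
          exact div_le_div_of_nonneg_left hN0.le (by positivity) hR1
      _ = N / L ^ E := by rw [pow_succ]; field_simp
  -- the densities
  have hI0 : (0 : ℝ) ≤ ((I N j).card : ℝ) := Nat.cast_nonneg _
  have hp1 : (0 : ℝ) < (p : ℝ) - 1 := by linarith
  have hp0 : (0 : ℝ) < p := by linarith
  have d1 : nu N p 1 = p / ((p : ℝ) - 1) := by
    unfold nu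
    rw [mul_one, if_pos hcop, Nat.totient_prime hp, Nat.cast_sub hp.one_lt.le, Nat.cast_one]
  have d2 : nu N p p ≤ 1 / ((p : ℝ) - 1) := by
    unfold nu
    split_ifs
    · rw [← sq, Nat.totient_prime_pow hp (by norm_num), Nat.cast_mul, Nat.cast_sub hp.one_lt.le, Nat.cast_one]
      apply le_of_eq
      push_cast
      field_simp
    · positivity
  have d3 : ∀ l ∈ (Icc 1 R).filter Nat.Prime, nu N p (l ^ 2) ≤ p / ((p : ℝ) - 1) * (1 / ((l : ℝ) * ((l : ℝ) - 1))) := by
    intro l hl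
    rw [mem_filter, mem_Icc] at hl
    have hl2 : (2 : ℝ) ≤ l := by exact_mod_cast hl.2.two_le
    have hl1 : (0 : ℝ) < (l : ℝ) - 1 := by linarith
    unfold nu
    split_ifs
    · have g1 : Nat.totient p * Nat.totient (l ^ 2) ≤ Nat.totient (p * l ^ 2) := Nat.totient_super_multiplicative _ _
      have g2 : ((p : ℝ) - 1) * ((l : ℝ) * ((l : ℝ) - 1)) ≤ Nat.totient (p * l ^ 2) := by
        have g3 : ((Nat.totient p * Nat.totient (l ^ 2) : ℕ) : ℝ) = ((p : ℝ) - 1) * ((l : ℝ) * ((l : ℝ) - 1)) := by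
          rw [Nat.totient_prime hp, Nat.totient_prime_pow hl.2 (by norm_num), Nat.cast_mul, Nat.cast_mul,
            Nat.cast_sub hp.one_lt.le, Nat.cast_sub hl.2.one_lt.le]
          push_cast
          ring
        rw [← g3]
        exact_mod_cast g1
      have g4 : (0 : ℝ) < ((p : ℝ) - 1) * ((l : ℝ) * ((l : ℝ) - 1)) := by positivity
      calc (p : ℝ) / (Nat.totient (p * l ^ 2) : ℝ) ≤ p / (((p : ℝ) - 1) * ((l : ℝ) * ((l : ℝ) - 1))) :=
            div_le_div_of_nonneg_left hp0.le g4 g2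
        _ = _ := by field_simp
    · positivity
  have d4 : ∑ l ∈ (Icc 1 R).filter Nat.Prime, nu N p (l ^ 2) ≤ p / ((p : ℝ) - 1) * 0.85 := by
    refine (sum_le_sum d3).trans ?_
    rw [← mul_sum]
    exact mul_le_mul_of_nonneg_left (prime_sum R) (by positivity)
  have d5 : ∑ l ∈ (Icc 1 R).filter Nat.Prime, Ps N j p (l ^ 2) ≤
      (p / ((p : ℝ) - 1) * 0.85) * ((I N j).card : ℝ) + R * err := by
    calc ∑ l ∈ (Icc 1 R).filter Nat.Prime, Ps N j p (l ^ 2) ≤
        ∑ l ∈ (Icc 1 R).filter Nat.Prime, (nu N p (l ^ 2) * ((I N j).card : ℝ) + err) := by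
          apply sum_le_sum
          intro l hl
          have := (abs_le.1 (c3 l hl)).2
          linarith
      _ = (∑ l ∈ (Icc 1 R).filter Nat.Prime, nu N p (l ^ 2)) * ((I N j).card : ℝ) +
          (((Icc 1 R).filter Nat.Prime).card : ℝ) * err := by
          rw [sum_add_distrib, ← sum_mul, sum_const, nsmul_eq_mul]
      _ ≤ _ := by
          apply add_le_add
          · exact mul_le_mul_of_nonneg_right d4 hI0
          · apply mul_le_mul_of_nonneg_right _ (by positivity)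
            have := card_filter_le (Icc 1 R) Nat.Prime
            rw [Nat.card_Icc, Nat.add_sub_cancel] at this
            exact_mod_cast this
  have d6 : 1 / 10 ≤ p / ((p : ℝ) - 1) - 1 / ((p : ℝ) - 1) - p / ((p : ℝ) - 1) * 0.85 := by
    have : p / ((p : ℝ) - 1) - 1 / ((p : ℝ) - 1) - p / ((p : ℝ) - 1) * 0.85 = (p * 0.15 - 1) / ((p : ℝ) - 1) := by
      field_simp; ring
    rw [this, div_le_div_iff₀ (by norm_num) hp1]
    linarith
  have c1' := (abs_le.1 c1).1
  have c2' := (abs_le.1 c2).2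
  rw [d1] at c1'
  have d7 := mul_le_mul_of_nonneg_right d2 hI0
  have d8 := mul_le_mul_of_nonneg_right d6 hI0
  have hRe : (R + 2) * err ≤ 3 * (N / L ^ E) := by
    have g1 : (R : ℝ) + 2 ≤ 3 * L ^ (E + 1) := by
      have : L ≤ L ^ (E + 1) := le_self_pow₀ hL1 (by omega)
      linarith
    have g2 : 0 ≤ err := by positivity
    calc ((R : ℝ) + 2) * err ≤ (3 * L ^ (E + 1)) * err := mul_le_mul_of_nonneg_right g1 g2
      _ = 9 * (N / L ^ (E + 1)) := by
          rw [herr]
          have : L ^ (2 * E + 2) = L ^ (E + 1) * L ^ (E + 1) := by rw [← pow_add]; congr 1; ring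
          rw [this]; field_simp; ring
      _ ≤ (3 * L) * (N / L ^ (E + 1)) := mul_le_mul_of_nonneg_right (by linarith) (by positivity)
      _ = _ := by rw [pow_succ]; field_simp
  rw [e1]
  nlinarith

end Pool.Agent.K3h95.LL
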