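import Mathlib
import Pool.Agent.K3h95.LL.A4
import Pool.Agent.Results.MP_e9eb55_nt.AlmostAllN

/-! The twisted sums for the moduli with `j` multiples below `N` (helper95). -/

set_option autoImplicit false

open Finset

open scoped ArithmeticFunction.vonMangoldt

namespace Pool.Agent.K3h95.LL

open Pool.Agent.TH445.OI
open Pool.Agent.Results.MP_e9eb55_nt.AlmostAllN (twistedSum)

/-- the twisted sum over the multiples of `q` -/
lemma tw_eq (g : ℕ → ℝ) (N j q : ℕ) (hj : 1 ≤ j) (hq : q ∈ I N j) :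
    twistedSum g q N = ∑ k ∈ Icc 1 j, Λ (N - q * k) * g (q * k) := by
  have hq' := (mem_I hj).1 hq
  obtain ⟨h1, h2⟩ := hq'
  have hq1 : 1 ≤ q := by
    by_contra hcon
    have : q = 0 := by omega
    subst this
    omega
  unfold twistedSum
  symm
  apply sum_bij' (fun k _ => N - q * k) (fun n _ => (N - n) / q)
  · intro k hk
    rw [mem_Icc] at hk
    have h3 : q * k ≤ q * j := Nat.mul_le_mul_left _ hk.2
    have h4 : q * 1 ≤ q * k := Nat.mul_le_mul_left _ hk.1
    rw [mem_filter, mem_Ico]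
    refine ⟨⟨by omega, by omega⟩, ?_⟩
    rw [Nat.modEq_iff_dvd' (by omega), Nat.sub_sub_self (by omega)]
    exact Dvd.intro _ rfl
  · intro n hn
    rw [mem_filter, mem_Ico] at hn
    obtain ⟨⟨h3, h4⟩, h5⟩ := hn
    rw [Nat.modEq_iff_dvd' h4.le] at h5
    obtain ⟨t, ht⟩ := h5
    have h6 : (N - n) / q = t := by rw [ht, Nat.mul_div_cancel_left _ hq1]
    rw [h6, mem_Icc]
    constructor
    · by_contra hcon
      have : t = 0 := by omega
      subst this
      omega
    · by_contra hcon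
      push Not at hcon
      have h7 : q * (j + 1) ≤ q * t := Nat.mul_le_mul_left _ hcon
      omega
  · intro k hk
    rw [mem_Icc] at hk
    have h3 : q * k ≤ q * j := Nat.mul_le_mul_left _ hk.2
    rw [Nat.sub_sub_self (by omega), Nat.mul_div_cancel_left _ hq1]
  · intro n hn
    rw [mem_filter, mem_Ico] at hn
    obtain ⟨⟨h3, h4⟩, h5⟩ := hn
    rw [Nat.modEq_iff_dvd' h4.le] at h5
    rw [Nat.mul_div_cancel' h5, Nat.sub_sub_self h4.le]
  · intro k hk
    rw [mem_Icc] at hk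
    have h3 : q * k ≤ q * j := Nat.mul_le_mul_left _ hk.2
    rw [Nat.sub_sub_self (by omega)]

/-- the weight `a + b log (m / N)` -/
noncomputable def hh (a b : ℝ) (N m : ℕ) : ℝ := a + b * Real.log (m / N)

/-- the weight `μ(m) (a + b log (m / N))` -/
noncomputable def gg (a b : ℝ) (N m : ℕ) : ℝ := mu m * hh a b N m

/-- the sum of the twisted sums with the weights `μ(q)` -/
noncomputable def SS (a b : ℝ) (N j : ℕ) : ℝ :=
  ∑ q ∈ (I N j).filter (fun q => q.Coprime N), mu q * twistedSum (gg a b N) q N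

/-- the sum of the absolute values of the twisted sums -/
noncomputable def AA (g : ℕ → ℝ) (N j : ℕ) : ℝ :=
  ∑ q ∈ (I N j).filter (fun q => q.Coprime N), |twistedSum g q N|

lemma SS_le (a b : ℝ) (N j : ℕ) : |SS a b N j| ≤ AA (gg a b N) N j := by
  unfold SS AA
  refine (abs_sum_le_sum_abs _ _).trans (sum_le_sum fun q _ => ?_)
  rw [abs_mul]
  exact mul_le_of_le_one_left (abs_nonneg _) (abs_mu_le q)

/-- the main term -/
noncomputable def GG (a b : ℝ) (N R j : ℕ) : ℝ := ∑ k ∈ Icc 1 j, (a + b * Real.log ((k : ℝ) / j)) * w N R k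

lemma inj_q (N j k : ℕ) (hj : 1 ≤ j) (hk : 1 ≤ k) (hkj : k ≤ j) : Set.InjOn (fun q => N - q * k) (I N j : Set ℕ) := by
  intro x hx y hy hxy
  rw [mem_coe, mem_I hj] at hx hy
  have h1 : x * k ≤ x * j := Nat.mul_le_mul_left _ hkj
  have h2 : y * k ≤ y * j := Nat.mul_le_mul_left _ hkj
  simp only at hxy
  have h3 : x * k = y * k := by omega
  exact Nat.eq_of_mul_eq_mul_right hk h3

lemma ncop_q (N j k : ℕ) (hN : 1 ≤ N) (hj : 1 ≤ j) (hk : 1 ≤ k) (hkj : k ≤ j) :
    ∑ q ∈ (I N j).filter (fun q => ¬ q.Coprime N), Λ (N - q * k) ≤ 2 * Real.log N * Real.log N := by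
  refine le_trans ?_ (noncop_total N hN)
  have h1 : ∑ q ∈ (I N j).filter (fun q => ¬ q.Coprime N), Λ (N - q * k) =
      ∑ n ∈ ((I N j).filter (fun q => ¬ q.Coprime N)).image (fun q => N - q * k), Λ n := by
    rw [sum_image]
    intro x hx y hy hxy
    rw [mem_coe, mem_filter] at hx hy
    exact inj_q N j k hj hk hkj (mem_coe.2 hx.1) (mem_coe.2 hy.1) hxy
  rw [h1]
  apply sum_le_sum_of_subset_of_nonneg
  · intro n hn
    rw [mem_image] at hn
    obtain ⟨q, hq, rfl⟩ := hn
    rw [mem_filter, mem_I hj] at hq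
    have h2 : q * k ≤ q * j := Nat.mul_le_mul_left _ hkj
    rw [mem_filter, mem_Icc]
    refine ⟨⟨by omega, Nat.sub_le _ _⟩, ?_⟩
    obtain ⟨p, hp, h3, h4⟩ := Nat.Prime.not_coprime_iff_dvd.1 hq.2
    exact Nat.Prime.not_coprime_iff_dvd.2 ⟨p, hp, Nat.dvd_sub h4 (h3.mul_right k), h4⟩
  · intro _ _ _; exact ArithmeticFunction.vonMangoldt_nonneg

lemma nu_one_le (N k j : ℕ) (hk : 1 ≤ k) (hkj : k ≤ j) : nu N k 1 ≤ 1 + 2 * Real.log j := by
  have h1 := Pool.Agent.TH212.EH.phi_low k hk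
  have h2 : Real.log k ≤ Real.log j := Real.log_le_log (by exact_mod_cast hk) (by exact_mod_cast hkj)
  have h3 : 0 ≤ Real.log k := Real.log_nonneg (by exact_mod_cast hk)
  unfold nu
  split_ifs
  · have hφ : (0 : ℝ) < Nat.totient (k * 1) := by
      rw [mul_one]; exact_mod_cast Nat.totient_pos.2 hk
    rw [div_le_iff₀ hφ]
    rw [mul_one] at hφ ⊢
    refine h1.trans ?_
    exact mul_le_mul_of_nonneg_right (by linarith) hφ.le
  · linarith

lemma card_low (N j : ℕ) (hj : 1 ≤ j) (hN : 4 * j * j ≤ N) : (N : ℝ) / (4 * j ^ 2) ≤ ((I N j).card : ℝ) := by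
  have h0 := cl_mono N j hj
  have h1 : cl N (j + 1) * (j + 1) ≤ N + (j + 1) - 1 := cl_mul_le
  have h2 : N ≤ cl N j * j := (cl_le hj).1 le_rfl
  rw [card_I, Nat.cast_sub h0]
  have hj0 : (0 : ℝ) < j := by exact_mod_cast hj
  have h3 : (N : ℝ) / j ≤ cl N j := by
    rw [div_le_iff₀ hj0]; exact_mod_cast h2
  have h4 : (cl N (j + 1) : ℝ) ≤ (N + j) / (j + 1) := by
    rw [le_div_iff₀ (by positivity)]
    have : cl N (j + 1) * (j + 1) ≤ N + j := by omega
    exact_mod_cast this
  have h5 : (4 : ℝ) * j * j ≤ N := by exact_mod_cast hN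
  have h6 : (N : ℝ) / (4 * j ^ 2) ≤ N / j - (N + j) / (j + 1) := by
    have hj1 : (1 : ℝ) ≤ j := by exact_mod_cast hj
    rw [div_sub_div _ _ hj0.ne' (by positivity), div_le_div_iff₀ (by positivity) (by positivity)]
    have e1 : (N : ℝ) * (j + 1) - j * (N + j) = N - j ^ 2 := by ring
    rw [e1]
    have f1 : (j : ℝ) * (j + 1) ≤ 2 * j ^ 2 := by nlinarith
    have e2 : (N : ℝ) * (j * (j + 1)) ≤ N * (2 * j ^ 2) := mul_le_mul_of_nonneg_left f1 (Nat.cast_nonneg _)
    have f2 : 2 * (N : ℝ) ≤ 4 * (N - j ^ 2) := by nlinarith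
    have e3 : 2 * (N : ℝ) * j ^ 2 ≤ 4 * (N - j ^ 2) * j ^ 2 := mul_le_mul_of_nonneg_right f2 (by positivity)
    linarith
  linarith

theorem SS_asym (K : ℕ) : ∃ N0 : ℕ, 3 ≤ N0 ∧ ∀ N : ℕ, N0 ≤ N → ∀ R : ℕ, Real.log N ^ (3 * K + 10) ≤ R →
    (R : ℝ) ≤ 2 * Real.log N ^ (3 * K + 10) → ∀ j : ℕ, 1 ≤ j → (j : ℝ) ≤ Real.log N ^ K →
    ∀ a b : ℝ, 0 ≤ a → a ≤ Real.log N → 0 ≤ b → b ≤ 1 →
    |SS a b N j - GG a b N R j * ((I N j).card : ℝ)| ≤
      b * (1 + 2 * Real.log j) * ((I N j).card : ℝ) + N / Real.log N ^ (2 * K + 4) := by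
  obtain ⟨N1, hN1, h1⟩ := V_asym (3 * K + 9) K
  obtain ⟨N2, hN2, h2⟩ := Ps_asym (2 * K + 6) K
  obtain ⟨N3, h3⟩ := evN _ (Real.tendsto_log_atTop.eventually_ge_atTop 6)
  obtain ⟨N4, h4⟩ := evN _ (ev_pow (3 * K + 9) 4 1 one_pos)
  refine ⟨N1 + N2 + N3 + N4, by omega, fun N hN R hR1 hR2 j hj hjL a b ha0 haL hb0 hb1 => ?_⟩
  have hN3 : 3 ≤ N := by omega
  have hN0 : (0 : ℝ) < N := by exact_mod_cast (by omega : 0 < N)
  set L := Real.log N with hL
  have hL6 : 6 ≤ L := h3 N (by omega)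
  have hL0 : 0 < L := by linarith
  have hL1 : 1 ≤ L := by linarith
  have g4 := h4 N (by omega)
  rw [← hL, Real.rpow_one] at g4
  have hj0 : (0 : ℝ) < j := by exact_mod_cast hj
  have hj1 : (1 : ℝ) ≤ j := by exact_mod_cast hj
  have hlj0 : 0 ≤ Real.log j := Real.log_nonneg hj1
  have hjN : (j : ℝ) ≤ N := by
    refine hjL.trans (le_trans ?_ g4)
    have : L ^ K ≤ L ^ (3 * K + 9) := pow_le_pow_right₀ hL1 (by omega)
    have : 0 ≤ L ^ (3 * K + 9) := by positivity
    linarith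
  have hljL : Real.log j ≤ L := Real.log_le_log hj0 hjN
  have hI0 : (0 : ℝ) ≤ ((I N j).card : ℝ) := Nat.cast_nonneg _
  -- bounds for `h`
  have hlog : ∀ k ∈ Icc 1 j, |a + b * Real.log ((k : ℝ) / j)| ≤ 2 * L := by
    intro k hk
    rw [mem_Icc] at hk
    have hk0 : (0 : ℝ) < k := by exact_mod_cast hk.1
    have e1 : Real.log ((k : ℝ) / j) ≤ 0 := by
      apply Real.log_nonpos (by positivity)
      rw [div_le_one hj0]; exact_mod_cast hk.2
    have e2 : -L ≤ Real.log ((k : ℝ) / j) := by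
      rw [Real.log_div hk0.ne' hj0.ne']
      have := Real.log_nonneg (show (1 : ℝ) ≤ k by exact_mod_cast hk.1)
      linarith
    rw [abs_le]
    constructor <;> nlinarith
  have hhb : ∀ q ∈ I N j, ∀ k ∈ Icc 1 j, |hh a b N (q * k)| ≤ 2 * L := by
    intro q hq k hk
    rw [mem_Icc] at hk
    rw [mem_I hj] at hq
    have hq1 : 1 ≤ q := by
      by_contra hcon
      have : q = 0 := by omega
      subst this; omega
    have h5 : q * k ≤ q * j := Nat.mul_le_mul_left _ hk.2
    have h6 : 1 ≤ q * k := Nat.mul_pos hq1 hk.1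
    have h7 : (1 : ℝ) ≤ ((q * k : ℕ) : ℝ) := by exact_mod_cast h6
    have h8 : ((q * k : ℕ) : ℝ) ≤ N := by exact_mod_cast (by omega : q * k ≤ N)
    have e1 : Real.log (((q * k : ℕ) : ℝ) / N) ≤ 0 := by
      apply Real.log_nonpos (by positivity)
      rw [div_le_one hN0]; exact h8
    have e2 : -L ≤ Real.log (((q * k : ℕ) : ℝ) / N) := by
      rw [Real.log_div (by linarith) hN0.ne']
      have := Real.log_nonneg h7
      linarith
    unfold hh
    rw [abs_le]
    constructor <;> nlinarith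
  -- decomposition
  set F : ℕ → ℕ → ℝ := fun q k => mu q * mu (q * k) * Λ (N - q * k) with hF
  have hFle : ∀ q k, |F q k| ≤ Λ (N - q * k) := by
    intro q k
    rw [hF]
    simp only
    rw [abs_mul, abs_mul, abs_of_nonneg (ArithmeticFunction.vonMangoldt_nonneg (n := N - q * k))]
    have : |mu q| * |mu (q * k)| ≤ 1 := by
      have := mul_le_mul (abs_mu_le q) (abs_mu_le (q * k)) (abs_nonneg _) zero_le_one
      linarith
    exact mul_le_of_le_one_left ArithmeticFunction.vonMangoldt_nonneg this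
  have e1 : SS a b N j = ∑ k ∈ Icc 1 j, ∑ q ∈ (I N j).filter (fun q => q.Coprime N), F q k * hh a b N (q * k) := by
    unfold SS
    rw [sum_comm]
    apply sum_congr rfl
    intro q hq
    rw [mem_filter] at hq
    rw [tw_eq _ N j q hj hq.1, mul_sum]
    apply sum_congr rfl
    intro k _
    rw [hF]
    unfold gg
    ring
  have e2 : SS a b N j = ∑ k ∈ Icc 1 j, ∑ q ∈ I N j, F q k * hh a b N (q * k) -
      ∑ k ∈ Icc 1 j, ∑ q ∈ (I N j).filter (fun q => ¬ q.Coprime N), F q k * hh a b N (q * k) := by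
    rw [e1, ← sum_sub_distrib]
    apply sum_congr rfl
    intro k _
    rw [← sum_filter_add_sum_filter_not (I N j) (fun q => q.Coprime N)]
    ring
  have e3 : |∑ k ∈ Icc 1 j, ∑ q ∈ (I N j).filter (fun q => ¬ q.Coprime N), F q k * hh a b N (q * k)| ≤
      j * (2 * L * (2 * L * L)) := by
    refine (abs_sum_le_sum_abs _ _).trans ?_
    have : ∀ k ∈ Icc 1 j, |∑ q ∈ (I N j).filter (fun q => ¬ q.Coprime N), F q k * hh a b N (q * k)| ≤
        2 * L * (2 * L * L) := by
      intro k hk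
      have hk' := mem_Icc.1 hk
      refine (abs_sum_le_sum_abs _ _).trans ?_
      calc ∑ q ∈ (I N j).filter (fun q => ¬ q.Coprime N), |F q k * hh a b N (q * k)| ≤
          ∑ q ∈ (I N j).filter (fun q => ¬ q.Coprime N), 2 * L * Λ (N - q * k) := by
            apply sum_le_sum
            intro q hq
            rw [mem_filter] at hq
            rw [abs_mul, mul_comm]
            exact mul_le_mul (hhb q hq.1 k hk) (hFle q k) (abs_nonneg _) (by linarith)
        _ = 2 * L * ∑ q ∈ (I N j).filter (fun q => ¬ q.Coprime N), Λ (N - q * k) := by rw [mul_sum]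
        _ ≤ 2 * L * (2 * L * L) := by
            apply mul_le_mul_of_nonneg_left _ (by linarith)
            exact ncop_q N j k (by omega) hj hk'.1 hk'.2
    refine (sum_le_sum this).trans ?_
    rw [sum_const, Nat.card_Icc, Nat.add_sub_cancel, nsmul_eq_mul]
  -- split `h`
  have e4 : ∀ k ∈ Icc 1 j, ∑ q ∈ I N j, F q k * hh a b N (q * k) =
      (a + b * Real.log ((k : ℝ) / j)) * V N j k + b * ∑ q ∈ I N j, F q k * Real.log ((q : ℝ) * j / N) := by
    intro k hk
    rw [mem_Icc] at hk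
    have hk0 : (0 : ℝ) < k := by exact_mod_cast hk.1
    unfold V
    rw [mul_sum, mul_sum, ← sum_add_distrib]
    apply sum_congr rfl
    intro q hq
    obtain ⟨hq1, hq2⟩ := I_pos hj hq
    have hq0 : (0 : ℝ) < q := by exact_mod_cast hq1
    have : Real.log (((q * k : ℕ) : ℝ) / N) = Real.log ((k : ℝ) / j) + Real.log ((q : ℝ) * j / N) := by
      rw [← Real.log_mul (by positivity) (by positivity)]
      congr 1
      push_cast
      field_simp
    unfold hh
    rw [this, hF]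
    ring
  have e5 : ∀ k ∈ Icc 1 j, |∑ q ∈ I N j, F q k * Real.log ((q : ℝ) * j / N)| ≤
      1 / j * ((1 + 2 * Real.log j) * ((I N j).card : ℝ) + 3 * (N / L ^ (2 * K + 6))) := by
    intro k hk
    rw [mem_Icc] at hk
    refine (abs_sum_le_sum_abs _ _).trans ?_
    have f1 : ∑ q ∈ I N j, |F q k * Real.log ((q : ℝ) * j / N)| ≤ ∑ q ∈ I N j, 1 / j * Λ (N - q * k) := by
      apply sum_le_sum
      intro q hq
      obtain ⟨hq1, hq2⟩ := I_pos hj hq
      have hq0 : (0 : ℝ) < q := by exact_mod_cast hq1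
      rw [mem_I hj] at hq
      have g1 : Real.log ((q : ℝ) * j / N) ≤ 0 := by
        apply Real.log_nonpos (by positivity)
        rw [div_le_one hN0]; exact_mod_cast hq.2.le
      have g2 : -(1 / (j : ℝ)) ≤ Real.log ((q : ℝ) * j / N) := by
        have g3 : (j : ℝ) / (j + 1) ≤ (q : ℝ) * j / N := by
          rw [div_le_div_iff₀ (by positivity) hN0]
          have : (N : ℝ) ≤ q * (j + 1) := by exact_mod_cast hq.1
          nlinarith
        have g4 := Real.log_le_log (by positivity) g3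
        have g5 : 1 - (1 + 1 / (j : ℝ)) ≤ Real.log ((j : ℝ) / (j + 1)) := by
          have := Real.one_sub_inv_le_log_of_pos (show 0 < (j : ℝ) / (j + 1) by positivity)
          refine le_trans (le_of_eq ?_) this
          field_simp
        linarith
      have g6 : |Real.log ((q : ℝ) * j / N)| ≤ 1 / j := by
        rw [abs_le]
        constructor
        · linarith
        · have : (0 : ℝ) ≤ 1 / j := by positivity
          linarith
      rw [abs_mul, mul_comm]
      exact mul_le_mul g6 (hFle q k) (abs_nonneg _) (by positivity)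
    refine f1.trans ?_
    rw [← mul_sum]
    apply mul_le_mul_of_nonneg_left _ (by positivity)
    have f2 : ∑ q ∈ I N j, Λ (N - q * k) = Ps N j k 1 := by
      unfold Ps
      rw [filter_true_of_mem (fun q _ => one_dvd q)]
    rw [f2]
    have f3 := (abs_le.1 (h2 N (by omega) j k 1 hk.1 hk.2 le_rfl hjL (by
      rw [mul_one]; exact le_trans (by exact_mod_cast hk.2) hjL))).2
    have f4 := mul_le_mul_of_nonneg_right (nu_one_le N k j hk.1 hk.2) hI0
    linarith
  have e6 : SS a b N j - GG a b N R j * ((I N j).card : ℝ) =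
      ∑ k ∈ Icc 1 j, (a + b * Real.log ((k : ℝ) / j)) * (V N j k - w N R k * ((I N j).card : ℝ)) +
      b * ∑ k ∈ Icc 1 j, ∑ q ∈ I N j, F q k * Real.log ((q : ℝ) * j / N) -
      ∑ k ∈ Icc 1 j, ∑ q ∈ (I N j).filter (fun q => ¬ q.Coprime N), F q k * hh a b N (q * k) := by
    rw [e2, sum_congr rfl e4]
    unfold GG
    rw [sum_add_distrib, mul_sum, sum_mul]
    have : ∑ k ∈ Icc 1 j, (a + b * Real.log ((k : ℝ) / j)) * (V N j k - w N R k * ((I N j).card : ℝ)) =
        ∑ k ∈ Icc 1 j, (a + b * Real.log ((k : ℝ) / j)) * V N j k -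
        ∑ k ∈ Icc 1 j, (a + b * Real.log ((k : ℝ) / j)) * w N R k * ((I N j).card : ℝ) := by
      rw [← sum_sub_distrib]
      apply sum_congr rfl
      intro k _
      ring
    rw [this]
    ring
  have e7 : |∑ k ∈ Icc 1 j, (a + b * Real.log ((k : ℝ) / j)) * (V N j k - w N R k * ((I N j).card : ℝ))| ≤
      j * (2 * L * (2 * (N / L ^ (3 * K + 9)))) := by
    refine (abs_sum_le_sum_abs _ _).trans ?_
    have : ∀ k ∈ Icc 1 j, |(a + b * Real.log ((k : ℝ) / j)) * (V N j k - w N R k * ((I N j).card : ℝ))| ≤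
        2 * L * (2 * (N / L ^ (3 * K + 9))) := by
      intro k hk
      have hk' := mem_Icc.1 hk
      rw [abs_mul]
      exact mul_le_mul (hlog k hk) (h1 N (by omega) R hR1 hR2 j k hk'.1 hk'.2 hjL) (abs_nonneg _) (by linarith)
    refine (sum_le_sum this).trans ?_
    rw [sum_const, Nat.card_Icc, Nat.add_sub_cancel, nsmul_eq_mul]
  have e8 : |b * ∑ k ∈ Icc 1 j, ∑ q ∈ I N j, F q k * Real.log ((q : ℝ) * j / N)| ≤
      b * ((1 + 2 * Real.log j) * ((I N j).card : ℝ)) + 3 * (N / L ^ (2 * K + 6)) := by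
    rw [abs_mul, abs_of_nonneg hb0]
    have f1 : |∑ k ∈ Icc 1 j, ∑ q ∈ I N j, F q k * Real.log ((q : ℝ) * j / N)| ≤
        (1 + 2 * Real.log j) * ((I N j).card : ℝ) + 3 * (N / L ^ (2 * K + 6)) := by
      refine (abs_sum_le_sum_abs _ _).trans ((sum_le_sum e5).trans ?_)
      rw [sum_const, Nat.card_Icc, Nat.add_sub_cancel, nsmul_eq_mul]
      apply le_of_eq
      field_simp
    have f2 := mul_le_mul_of_nonneg_left f1 hb0
    have f3 : b * (3 * (N / L ^ (2 * K + 6))) ≤ 3 * (N / L ^ (2 * K + 6)) :=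
      mul_le_of_le_one_left (by positivity) hb1
    linarith
  -- collect
  have i1 : (j : ℝ) * (2 * L * (2 * (N / L ^ (3 * K + 9)))) ≤ N / L ^ (2 * K + 4) / 4 := by
    calc (j : ℝ) * (2 * L * (2 * (N / L ^ (3 * K + 9)))) ≤ L ^ K * (2 * L * (2 * (N / L ^ (3 * K + 9)))) :=
          mul_le_mul_of_nonneg_right hjL (by positivity)
      _ = 4 * (N / L ^ (2 * K + 4)) / L ^ 4 := by
          have : L ^ (3 * K + 9) = L ^ K * L * L ^ (2 * K + 4) * L ^ 4 := by
            rw [← pow_succ, ← pow_add, ← pow_add]; congr 1; ring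
          rw [this]; field_simp; ring
      _ ≤ N / L ^ (2 * K + 4) / 4 := by
          have : (16 : ℝ) ≤ L ^ 4 := by
            calc (16 : ℝ) ≤ 6 ^ 4 := by norm_num
              _ ≤ L ^ 4 := pow_le_pow_left₀ (by norm_num) hL6 4
          rw [div_le_div_iff₀ (by positivity) (by norm_num)]
          have hx : 0 < N / L ^ (2 * K + 4) := by positivity
          nlinarith
  have i2 : 3 * (N / L ^ (2 * K + 6)) ≤ N / L ^ (2 * K + 4) / 4 := by
    have : L ^ (2 * K + 6) = L ^ (2 * K + 4) * L ^ 2 := by rw [← pow_add]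
    rw [this, ← div_div, mul_div_assoc', div_le_div_iff₀ (by positivity) (by norm_num)]
    have hx : 0 < N / L ^ (2 * K + 4) := by positivity
    have : (36 : ℝ) ≤ L ^ 2 := by nlinarith
    nlinarith
  have i3 : (j : ℝ) * (2 * L * (2 * L * L)) ≤ N / L ^ (2 * K + 4) / 4 := by
    rw [div_div, le_div_iff₀ (by positivity)]
    calc (j : ℝ) * (2 * L * (2 * L * L)) * (L ^ (2 * K + 4) * 4) ≤
          L ^ K * (2 * L * (2 * L * L)) * (L ^ (2 * K + 4) * 4) := by gcongr
      _ = 16 * L ^ (3 * K + 7) := by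
          have : L ^ (3 * K + 7) = L ^ K * L ^ (2 * K + 4) * L ^ 3 := by
            rw [← pow_add, ← pow_add]; congr 1; ring
          rw [this]; ring
      _ ≤ 4 * L ^ (3 * K + 9) := by
          have : L ^ (3 * K + 9) = L ^ (3 * K + 7) * L ^ 2 := by rw [← pow_add]
          rw [this]
          have hx : 0 < L ^ (3 * K + 7) := by positivity
          have h16 : (4 : ℝ) ≤ L ^ 2 := by nlinarith
          have := mul_le_mul_of_nonneg_left h16 hx.le
          linarith
      _ ≤ N := g4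
  rw [e6]
  rw [abs_le] at e3 e7 e8 ⊢
  have hx : 0 < N / L ^ (2 * K + 4) := by positivity
  constructor
  · linarith [e3.1, e3.2, e7.1, e7.2, e8.1, e8.2]
  · linarith [e3.1, e3.2, e7.1, e7.2, e8.1, e8.2]

end Pool.Agent.K3h95.LL
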