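import Mathlib
import Pool.Agent.K3h95.LL.A5

/-! Two consecutive blocks of moduli: one of them has large twisted sums (helper95). -/

set_option autoImplicit false

open Finset

open scoped ArithmeticFunction.vonMangoldt

namespace Pool.Agent.K3h95.LL

open Pool.Agent.TH445.OI

lemma V_le (N j k : ℕ) : |V N j k| ≤ Ps N j k 1 := by
  unfold V Ps
  rw [filter_true_of_mem (fun q _ => one_dvd q)]
  refine (abs_sum_le_sum_abs _ _).trans (sum_le_sum fun q _ => ?_)
  rw [abs_mul, abs_mul, abs_of_nonneg (ArithmeticFunction.vonMangoldt_nonneg (n := N - q * k))]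
  have : |mu q| * |mu (q * k)| ≤ 1 := by
    have := mul_le_mul (abs_mu_le q) (abs_mu_le (q * k)) (abs_nonneg _) zero_le_one
    linarith
  exact mul_le_of_le_one_left ArithmeticFunction.vonMangoldt_nonneg this

lemma GG_diff (a b : ℝ) (N R p : ℕ) (hp : 2 ≤ p) (hb : 0 ≤ b) (W : ℝ)
    (hw : ∀ k ∈ Icc 1 (p - 1), |w N R k| ≤ W) :
    |GG a b N R p - GG a b N R (p - 1) - a * w N R p| ≤ b * W := by
  obtain ⟨s, rfl⟩ : ∃ s, p = s + 1 := ⟨p - 1, by omega⟩
  have hs : 1 ≤ s := by omega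
  rw [Nat.add_sub_cancel] at hw ⊢
  have hs0 : (0 : ℝ) < s := by exact_mod_cast hs
  unfold GG
  rw [sum_Icc_succ_top (by omega)]
  have e1 : Real.log (((s + 1 : ℕ) : ℝ) / ((s + 1 : ℕ) : ℝ)) = 0 := by
    rw [div_self (by positivity), Real.log_one]
  rw [e1]
  have e2 : ∑ k ∈ Icc 1 s, (a + b * Real.log ((k : ℝ) / ((s + 1 : ℕ) : ℝ))) * w N R k +
      (a + b * 0) * w N R (s + 1) - ∑ k ∈ Icc 1 s, (a + b * Real.log ((k : ℝ) / s)) * w N R k -
      a * w N R (s + 1) = ∑ k ∈ Icc 1 s, b * (Real.log ((s : ℝ) / ((s + 1 : ℕ) : ℝ)) * w N R k) := by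
    have e3 : ∑ k ∈ Icc 1 s, (a + b * Real.log ((k : ℝ) / ((s + 1 : ℕ) : ℝ))) * w N R k -
        ∑ k ∈ Icc 1 s, (a + b * Real.log ((k : ℝ) / s)) * w N R k =
        ∑ k ∈ Icc 1 s, b * (Real.log ((s : ℝ) / ((s + 1 : ℕ) : ℝ)) * w N R k) := by
      rw [← sum_sub_distrib]
      apply sum_congr rfl
      intro k hk
      rw [mem_Icc] at hk
      have hk0 : (0 : ℝ) < k := by exact_mod_cast hk.1
      have e4 : Real.log ((k : ℝ) / ((s + 1 : ℕ) : ℝ)) = Real.log ((s : ℝ) / ((s + 1 : ℕ) : ℝ)) + Real.log ((k : ℝ) / s) := by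
        rw [← Real.log_mul (by positivity) (by positivity)]
        congr 1
        field_simp
      rw [e4]
      ring
    linarith
  rw [e2]
  refine (abs_sum_le_sum_abs _ _).trans ?_
  have e5 : |Real.log ((s : ℝ) / ((s + 1 : ℕ) : ℝ))| ≤ 1 / s := by
    have g1 : Real.log ((s : ℝ) / ((s + 1 : ℕ) : ℝ)) ≤ 0 := by
      apply Real.log_nonpos (by positivity)
      rw [div_le_one (by positivity)]
      push_cast; linarith
    have g2 : 1 - (1 + 1 / (s : ℝ)) ≤ Real.log ((s : ℝ) / ((s + 1 : ℕ) : ℝ)) := by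
      have := Real.one_sub_inv_le_log_of_pos (show 0 < (s : ℝ) / ((s + 1 : ℕ) : ℝ) by positivity)
      refine le_trans (le_of_eq ?_) this
      push_cast
      field_simp
    have g3 : (0 : ℝ) ≤ 1 / s := by positivity
    rw [abs_le]
    constructor <;> linarith
  calc ∑ k ∈ Icc 1 s, |b * (Real.log ((s : ℝ) / ((s + 1 : ℕ) : ℝ)) * w N R k)| ≤
      ∑ k ∈ Icc 1 s, b * (1 / s * W) := by
        apply sum_le_sum
        intro k hk
        rw [abs_mul, abs_mul, abs_of_nonneg hb]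
        apply mul_le_mul_of_nonneg_left _ hb
        exact mul_le_mul e5 (hw k hk) (abs_nonneg _) (by positivity)
    _ = b * W := by
        rw [sum_const, Nat.card_Icc, Nat.add_sub_cancel, nsmul_eq_mul]
        field_simp

theorem pair (K : ℕ) : ∃ N0 : ℕ, 3 ≤ N0 ∧ ∀ N : ℕ, N0 ≤ N → ∀ p : ℕ, p.Prime → ¬ p ∣ N → 51 ≤ p →
    (p : ℝ) ≤ Real.log N ^ K → ∀ a b : ℝ, 1 ≤ a → a ≤ Real.log N → 0 ≤ b → b ≤ 1 →
    b * (4 + 6 * Real.log p) ≤ a / 100 →
    a * (N / (400 * p ^ 2)) ≤ AA (gg a b N) N p + AA (gg a b N) N (p - 1) := by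
  obtain ⟨N1, hN1, h1⟩ := SS_asym K
  obtain ⟨N2, hN2, h2⟩ := V_asym (3 * K + 9) K
  obtain ⟨N3, hN3, h3⟩ := Vp (3 * K + 9) K
  obtain ⟨N4, hN4, h4⟩ := Ps_asym (2 * K + 4) K
  obtain ⟨N5, h5⟩ := evN _ (Real.tendsto_log_atTop.eventually_ge_atTop 20)
  obtain ⟨N6, h6⟩ := evN _ (ev_pow (2 * K) 4 1 one_pos)
  refine ⟨N1 + N2 + N3 + N4 + N5 + N6, by omega, fun N hN p hp hpN hp51 hpL a b ha1 haL hb0 hb1 hab => ?_⟩
  have hN0 : (0 : ℝ) < N := by exact_mod_cast (by omega : 0 < N)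
  set L := Real.log N with hL
  have hL20 : 20 ≤ L := h5 N (by omega)
  have hL0 : 0 < L := by linarith
  have hL1 : 1 ≤ L := by linarith
  have g6 := h6 N (by omega)
  rw [← hL, Real.rpow_one] at g6
  set x := L ^ (3 * K + 10) with hx
  have hx1 : 1 ≤ x := one_le_pow₀ hL1
  set R := ⌈x⌉₊ with hR
  have hR1 : x ≤ R := Nat.le_ceil _
  have hR2 : (R : ℝ) ≤ 2 * x := by
    have := (Nat.ceil_lt_add_one (by linarith : 0 ≤ x)).le
    linarith
  have hp0 : (0 : ℝ) < p := by exact_mod_cast hp.pos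
  have hp1 : ((p - 1 : ℕ) : ℝ) ≤ p := by exact_mod_cast Nat.sub_le _ _
  have hlp : 0 ≤ Real.log p := Real.log_nonneg (by exact_mod_cast hp.one_lt.le)
  -- sizes of the blocks
  have hcard : ∀ j : ℕ, 1 ≤ j → j ≤ p → (N : ℝ) / (4 * p ^ 2) ≤ ((I N j).card : ℝ) := by
    intro j hj hjp
    have hjp' : (j : ℝ) ≤ p := by exact_mod_cast hjp
    have hj0 : (0 : ℝ) < j := by exact_mod_cast hj
    have e1 : 4 * j * j ≤ N := by
      have : (4 : ℝ) * j * j ≤ N := by
        calc (4 : ℝ) * j * j ≤ 4 * L ^ K * L ^ K := by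
              have := hjp'.trans hpL
              gcongr
          _ = 4 * L ^ (2 * K) := by
              rw [mul_assoc, ← pow_add]; congr 2; ring
          _ ≤ N := g6
      exact_mod_cast this
    refine le_trans ?_ (card_low N j hj e1)
    apply div_le_div_of_nonneg_left hN0.le (by positivity)
    have : (j : ℝ) ^ 2 ≤ p ^ 2 := pow_le_pow_left₀ hj0.le hjp' 2
    linarith
  set c := (N : ℝ) / (4 * p ^ 2) with hc
  have hc0 : 0 < c := by positivity
  have herr : N / L ^ (2 * K + 4) ≤ c / 1000 := by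
    rw [hc, div_div]
    apply div_le_div_of_nonneg_left hN0.le (by positivity)
    calc 4 * (p : ℝ) ^ 2 * 1000 ≤ 4 * (L ^ K) ^ 2 * 1000 := by gcongr
      _ = 4000 * L ^ (2 * K) := by rw [← pow_mul]; ring_nf
      _ ≤ L ^ 4 * L ^ (2 * K) := by
          apply mul_le_mul_of_nonneg_right _ (by positivity)
          calc (4000 : ℝ) ≤ 20 ^ 4 := by norm_num
            _ ≤ L ^ 4 := pow_le_pow_left₀ (by norm_num) hL20 4
      _ = _ := by rw [← pow_add]; congr 1; ring
  have herr2 : N / L ^ (3 * K + 9) ≤ c / 1000 := by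
    refine le_trans ?_ herr
    exact div_le_div_of_nonneg_left hN0.le (by positivity) (pow_le_pow_right₀ hL1 (by omega))
  -- the two sums
  have key : ∀ j : ℕ, 1 ≤ j → j ≤ p → c * (|GG a b N R j| - (b * (1 + 2 * Real.log p) + 1 / 1000)) ≤ AA (gg a b N) N j := by
    intro j hj hjp
    have hjp' : (j : ℝ) ≤ p := by exact_mod_cast hjp
    have hj0 : (0 : ℝ) < j := by exact_mod_cast hj
    have e1 := h1 N (by omega) R hR1 hR2 j hj (hjp'.trans hpL) a b (by linarith) haL hb0 hb1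
    have e2 := SS_le a b N j
    have e3 := hcard j hj hjp
    have e4 : Real.log j ≤ Real.log p := Real.log_le_log hj0 hjp'
    have e5 : |GG a b N R j| * ((I N j).card : ℝ) ≤ |SS a b N j| + (b * (1 + 2 * Real.log j) * ((I N j).card : ℝ) + N / L ^ (2 * K + 4)) := by
      have f1 : |GG a b N R j * ((I N j).card : ℝ)| = |GG a b N R j| * ((I N j).card : ℝ) := by
        rw [abs_mul, Nat.abs_cast]
      have f2 := abs_sub_abs_le_abs_sub (GG a b N R j * ((I N j).card : ℝ)) (SS a b N j)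
      rw [abs_sub_comm] at f2
      linarith
    have e6 : b * (1 + 2 * Real.log j) * ((I N j).card : ℝ) ≤ b * (1 + 2 * Real.log p) * ((I N j).card : ℝ) := by
      apply mul_le_mul_of_nonneg_right _ (Nat.cast_nonneg _)
      apply mul_le_mul_of_nonneg_left _ hb0
      linarith
    have e7 : (N : ℝ) / L ^ (2 * K + 4) ≤ 1 / 1000 * ((I N j).card : ℝ) := by linarith
    have e8 : (|GG a b N R j| - (b * (1 + 2 * Real.log p) + 1 / 1000)) * ((I N j).card : ℝ) ≤ AA (gg a b N) N j := by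
      linarith
    rcases le_total 0 (|GG a b N R j| - (b * (1 + 2 * Real.log p) + 1 / 1000)) with h | h
    · refine le_trans ?_ e8
      rw [mul_comm]
      exact mul_le_mul_of_nonneg_left e3 h
    · have f1 : c * (|GG a b N R j| - (b * (1 + 2 * Real.log p) + 1 / 1000)) ≤ 0 :=
        mul_nonpos_of_nonneg_of_nonpos hc0.le h
      have f2 : 0 ≤ AA (gg a b N) N j := sum_nonneg fun _ _ => abs_nonneg _
      linarith
  have k1 := key p hp.one_lt.le le_rfl
  have k2 := key (p - 1) (by omega) (Nat.sub_le _ _)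
  -- the density at `p`
  have hcp := hcard p hp.one_lt.le le_rfl
  have hcp0 : (0 : ℝ) < ((I N p).card : ℝ) := lt_of_lt_of_le hc0 hcp
  have hwp : w N R p ≤ -(9 / 100) := by
    have e1 := h3 N (by omega) R hR1 hR2 p p hp hpN (by omega) le_rfl hpL
    have e2 := (abs_le.1 (h2 N (by omega) R hR1 hR2 p p hp.one_lt.le le_rfl hpL)).1
    have e3 : w N R p * ((I N p).card : ℝ) ≤ -(9 / 100) * ((I N p).card : ℝ) := by
      linarith
    exact le_of_mul_le_mul_right e3 hcp0
  have hwk : ∀ k ∈ Icc 1 (p - 1), |w N R k| ≤ 2 + 2 * Real.log p := by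
    intro k hk
    rw [mem_Icc] at hk
    have e1 := h2 N (by omega) R hR1 hR2 p k hk.1 (by omega) hpL
    have e2 := V_le N p k
    have e3 := (abs_le.1 (h4 N (by omega) p k 1 hk.1 (by omega) le_rfl hpL (by
      rw [mul_one]; exact le_trans (by exact_mod_cast (by omega : k ≤ p)) hpL))).2
    have e4 := mul_le_mul_of_nonneg_right (nu_one_le N k p hk.1 (by omega)) (Nat.cast_nonneg (α := ℝ) (I N p).card)
    have e5 : |w N R k| * ((I N p).card : ℝ) ≤ |V N p k| + 2 * (N / L ^ (3 * K + 9)) := by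
      have f1 : |w N R k * ((I N p).card : ℝ)| = |w N R k| * ((I N p).card : ℝ) := by
        rw [abs_mul, Nat.abs_cast]
      have f2 := abs_sub_abs_le_abs_sub (w N R k * ((I N p).card : ℝ)) (V N p k)
      rw [abs_sub_comm] at f2
      linarith
    have e6 : |w N R k| * ((I N p).card : ℝ) ≤ (2 + 2 * Real.log p) * ((I N p).card : ℝ) := by
      linarith
    exact le_of_mul_le_mul_right e6 hcp0
  have hd := GG_diff a b N R p hp.two_le hb0 (2 + 2 * Real.log p) hwk
  have hawp : a * w N R p ≤ -(9 / 100) * a := by nlinarith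
  have hG : 9 / 100 * a - b * (2 + 2 * Real.log p) ≤ |GG a b N R p| + |GG a b N R (p - 1)| := by
    have f1 := (abs_le.1 hd).2
    have f2 := neg_abs_le (GG a b N R p)
    have f3 := le_abs_self (GG a b N R (p - 1))
    linarith
  have hfin : c * (a / 100) ≤ c * (|GG a b N R p| - (b * (1 + 2 * Real.log p) + 1 / 1000)) +
      c * (|GG a b N R (p - 1)| - (b * (1 + 2 * Real.log p) + 1 / 1000)) := by
    rw [← mul_add]
    apply mul_le_mul_of_nonneg_left _ hc0.le
    linarith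
  have : a * (N / (400 * p ^ 2)) = c * (a / 100) := by
    rw [hc]; field_simp; norm_num
  linarith

end Pool.Agent.K3h95.LL
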