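import Mathlib
import Pool.Agent.K3h95.LL.A6

/-! All moduli up to `N / (log N) ^ B` (helper95). -/

set_option autoImplicit false

open Finset

open scoped ArithmeticFunction.vonMangoldt

namespace Pool.Agent.K3h95.LL

open Pool.Agent.TH445.OI
open Pool.Agent.Results.MP_e9eb55_nt.AlmostAllN (twistedSum disc g₁ g₂)

lemma theta_near : ∃ M0 : ℕ, ∀ M : ℕ, M0 ≤ M → |Chebyshev.theta (M : ℝ) - M| ≤ M / 20 := by
  obtain ⟨C, hC, h⟩ := Pool.Agent.H442R2.EHI.PntErrAux.thetaU 1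
  obtain ⟨M1, h1⟩ := evN _ (Real.tendsto_log_atTop.eventually_ge_atTop (20 * C))
  refine ⟨M1 + 3, fun M hM => ?_⟩
  have h2 := h M (by omega)
  have h3 := h1 M (by omega)
  have hM0 : (0 : ℝ) < M := by exact_mod_cast (by omega : 0 < M)
  refine h2.trans ?_
  rw [pow_one, mul_div_assoc', div_le_div_iff₀ (by linarith) (by norm_num)]
  nlinarith

lemma sum_log_le (N : ℕ) (hN : 1 ≤ N) (S : Finset ℕ) (hS : ∀ p ∈ S, p.Prime ∧ p ∣ N) :
    ∑ p ∈ S, Real.log p ≤ Real.log N := by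
  have h1 : ∑ p ∈ S, Real.log p = Real.log ((∏ p ∈ S, p : ℕ) : ℝ) := by
    rw [Nat.cast_prod, Real.log_prod]
    intro p hp
    exact_mod_cast (hS p hp).1.ne_zero
  rw [h1]
  apply Real.log_le_log
  · exact_mod_cast Finset.prod_pos fun p hp => (hS p hp).1.pos
  · have h2 : S ⊆ N.primeFactors := fun p hp => Nat.mem_primeFactors.2 ⟨(hS p hp).1, (hS p hp).2, by omega⟩
    have h3 : ∏ p ∈ S, p ≤ ∏ p ∈ N.primeFactors, p :=
      Finset.prod_le_prod_of_subset_of_one_le' h2 (fun p hp _ => (Nat.prime_of_mem_primeFactors hp).one_lt.le)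
    exact_mod_cast h3.trans (Nat.le_of_dvd (by omega) (Nat.prod_primeFactors_dvd N))

lemma theta_sum (M : ℕ) : Chebyshev.theta (M : ℝ) = ∑ p ∈ (Icc 1 M).filter Nat.Prime, Real.log p := by
  rw [Chebyshev.theta_eq_sum_Icc, Nat.floor_natCast]
  apply sum_congr _ (fun _ _ => rfl)
  ext p
  rw [mem_filter, mem_filter, mem_Icc, mem_Icc]
  constructor
  · rintro ⟨⟨_, h1⟩, h2⟩; exact ⟨⟨h2.one_lt.le, h1⟩, h2⟩
  · rintro ⟨⟨_, h1⟩, h2⟩; exact ⟨⟨Nat.zero_le _, h1⟩, h2⟩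

/-- a small prime that does not divide `N` -/
lemma ex_prime : ∃ N0 : ℕ, ∀ N : ℕ, N0 ≤ N → ∃ r : ℕ, r.Prime ∧ ¬ r ∣ N ∧ (r : ℝ) ≤ 2 * Real.log N := by
  obtain ⟨M0, hM⟩ := theta_near
  obtain ⟨N1, h1⟩ := evN _ (Real.tendsto_log_atTop.eventually_ge_atTop ((M0 : ℝ) + 20))
  refine ⟨N1 + 3, fun N hN => ?_⟩
  have hL := h1 N (by omega)
  set L := Real.log N with hLdef
  have hM0 : (0 : ℝ) ≤ M0 := Nat.cast_nonneg _
  set M := ⌊2 * L⌋₊ with hMdef
  have hM1 : (M : ℝ) ≤ 2 * L := Nat.floor_le (by linarith)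
  have hM2 : 2 * L < M + 1 := Nat.lt_floor_add_one _
  have hM3 : M0 ≤ M := by
    have : (M0 : ℝ) ≤ M := by linarith
    exact_mod_cast this
  have h2 := (abs_le.1 (hM M hM3)).1
  by_contra hcon
  push Not at hcon
  have h3 := sum_log_le N (by omega) ((Icc 1 M).filter Nat.Prime) (fun p hp => by
    rw [mem_filter, mem_Icc] at hp
    refine ⟨hp.2, ?_⟩
    by_contra hpN
    have h4 := hcon p hp.2 hpN
    have h5 : (p : ℝ) ≤ M := by exact_mod_cast hp.1.2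
    linarith)
  rw [← theta_sum, ← hLdef] at h3
  linarith

/-- many primes in `(J, 2 J]` that do not divide `N` -/
lemma many_primes : ∃ J0 : ℕ, ∀ J : ℕ, J0 ≤ J → ∀ N : ℕ, 1 ≤ N → 20 * Real.log N ≤ J →
    4 / 5 * (J : ℝ) ≤ (((Ioc J (2 * J)).filter (fun p => p.Prime ∧ ¬ p ∣ N)).card : ℝ) * Real.log (2 * J) := by
  obtain ⟨M0, hM⟩ := theta_near
  refine ⟨M0 + 1, fun J hJ N hN hJL => ?_⟩
  have hJ0 : (1 : ℝ) ≤ J := by exact_mod_cast (by omega : 1 ≤ J)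
  have h1 := (abs_le.1 (hM J (by omega))).2
  have h2 := (abs_le.1 (hM (2 * J) (by omega))).1
  rw [theta_sum] at h1 h2
  have h3 : ∑ p ∈ (Icc 1 (2 * J)).filter Nat.Prime, Real.log p =
      ∑ p ∈ (Icc 1 J).filter Nat.Prime, Real.log p + ∑ p ∈ (Ioc J (2 * J)).filter Nat.Prime, Real.log p := by
    rw [← sum_union]
    · apply sum_congr _ (fun _ _ => rfl)
      rw [← filter_union]
      congr 1
      ext n
      rw [mem_union, mem_Icc, mem_Icc, mem_Ioc]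
      omega
    · rw [disjoint_left]
      intro n h1 h2
      rw [mem_filter, mem_Icc] at h1
      rw [mem_filter, mem_Ioc] at h2
      omega
  have h4 : ∑ p ∈ (Ioc J (2 * J)).filter Nat.Prime, Real.log p =
      ∑ p ∈ (Ioc J (2 * J)).filter (fun p => p.Prime ∧ ¬ p ∣ N), Real.log p +
      ∑ p ∈ (Ioc J (2 * J)).filter (fun p => p.Prime ∧ p ∣ N), Real.log p := by
    rw [← sum_filter_add_sum_filter_not ((Ioc J (2 * J)).filter Nat.Prime) (fun p => ¬ p ∣ N), filter_filter,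
      filter_filter]
    simp only [not_not]
  have h5 := sum_log_le N hN ((Ioc J (2 * J)).filter (fun p => p.Prime ∧ p ∣ N)) (fun p hp => by
    rw [mem_filter] at hp; exact hp.2)
  have h6 : ∑ p ∈ (Ioc J (2 * J)).filter (fun p => p.Prime ∧ ¬ p ∣ N), Real.log p ≤
      (((Ioc J (2 * J)).filter (fun p => p.Prime ∧ ¬ p ∣ N)).card : ℝ) * Real.log (2 * J) := by
    calc ∑ p ∈ (Ioc J (2 * J)).filter (fun p => p.Prime ∧ ¬ p ∣ N), Real.log p ≤
        ∑ p ∈ (Ioc J (2 * J)).filter (fun p => p.Prime ∧ ¬ p ∣ N), Real.log (2 * J) := by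
          apply sum_le_sum
          intro p hp
          rw [mem_filter, mem_Ioc] at hp
          apply Real.log_le_log (by exact_mod_cast hp.2.1.pos)
          exact_mod_cast hp.1.2
      _ = _ := by rw [sum_const, nsmul_eq_mul]
  push_cast at h2
  linarith

/-- the moduli that are not squarefree do not contribute -/
lemma tw_sq (g : ℕ → ℝ) (hg : ∀ m, ¬ Squarefree m → g m = 0) (N r : ℕ) (hr : 2 ≤ r) : twistedSum g (r ^ 2) N = 0 := by
  unfold twistedSum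
  apply sum_eq_zero
  intro n hn
  rw [mem_filter, mem_Ico] at hn
  rw [Nat.modEq_iff_dvd' hn.1.2.le] at hn
  rw [hg (N - n), mul_zero]
  intro hs
  have h1 := (Nat.squarefree_iff_prime_squarefree.1 hs)
  obtain ⟨p, hp, hpr⟩ := Nat.exists_prime_and_dvd (show r ≠ 1 by omega)
  apply h1 p hp
  rw [← sq]
  exact (pow_dvd_pow_of_dvd hpr 2).trans hn.2

/-- the full twisted sum is bounded by the discrepancy -/
theorem one_le_disc : ∃ N0 : ℕ, ∀ N : ℕ, N0 ≤ N → ∀ g : ℕ → ℝ, (∀ m, ¬ Squarefree m → g m = 0) →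
    ∀ Q : ℝ, 4 * Real.log N ^ 2 ≤ Q → |twistedSum g 1 N| ≤ 4 * Real.log N ^ 2 * disc g N Q := by
  obtain ⟨N1, h1⟩ := ex_prime
  refine ⟨N1 + 3, fun N hN g hg Q hQ => ?_⟩
  obtain ⟨r, hr, hrN, hrL⟩ := h1 N (by omega)
  have hr0 : (0 : ℝ) < r := by exact_mod_cast hr.pos
  have hr2 : (r : ℝ) ^ 2 ≤ 4 * Real.log N ^ 2 := by
    calc (r : ℝ) ^ 2 ≤ (2 * Real.log N) ^ 2 := pow_le_pow_left₀ hr0.le hrL 2
      _ = _ := by ring
  have hmem : r ^ 2 ∈ (Icc 1 ⌊Q⌋₊).filter (fun q => q.Coprime N) := by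
    rw [mem_filter, mem_Icc]
    refine ⟨⟨Nat.one_le_pow _ _ hr.pos, ?_⟩, ?_⟩
    · apply Nat.le_floor
      push_cast
      linarith
    · exact Nat.Coprime.pow_left 2 ((Nat.Prime.coprime_iff_not_dvd hr).2 hrN)
  have h2 : |twistedSum g (r ^ 2) N - 1 / (Nat.totient (r ^ 2) : ℝ) * twistedSum g 1 N| ≤ disc g N Q := by
    unfold disc
    exact single_le_sum (f := fun q => |twistedSum g q N - 1 / (Nat.totient q : ℝ) * twistedSum g 1 N|)
      (fun _ _ => abs_nonneg _) hmem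
  have hφ0 : (0 : ℝ) < Nat.totient (r ^ 2) := by exact_mod_cast Nat.totient_pos.2 (pow_pos hr.pos 2)
  rw [tw_sq g hg N r hr.two_le, zero_sub, abs_neg, abs_mul, abs_of_pos (by positivity), one_div_mul_eq_div,
    div_le_iff₀ hφ0] at h2
  have hD : 0 ≤ disc g N Q := sum_nonneg fun _ _ => abs_nonneg _
  have h3 : (Nat.totient (r ^ 2) : ℝ) ≤ 4 * Real.log N ^ 2 := by
    refine le_trans ?_ hr2
    exact_mod_cast Nat.totient_le (r ^ 2)
  calc |twistedSum g 1 N| ≤ disc g N Q * Nat.totient (r ^ 2) := h2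
    _ ≤ disc g N Q * (4 * Real.log N ^ 2) := mul_le_mul_of_nonneg_left h3 hD
    _ = _ := by ring

/-- the sum of the absolute values of the twisted sums -/
noncomputable def BB (g : ℕ → ℝ) (N : ℕ) (Q : ℝ) : ℝ :=
  ∑ q ∈ (Icc 1 ⌊Q⌋₊).filter (fun q => q.Coprime N), |twistedSum g q N|

lemma harm_le (y : ℕ) : ∑ d ∈ Icc 1 y, 1 / (d : ℝ) ≤ 1 + Real.log y := Pool.Agent.R311.DEH.harm_le y

/-- the sum of the reciprocals of Euler's function -/
lemma inv_phi_sum (N M : ℕ) (hMN : M ≤ N) (hN : 1 ≤ N) :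
    ∑ q ∈ Icc 1 M, 1 / (Nat.totient q : ℝ) ≤ (1 + 2 * Real.log N) * (1 + Real.log N) := by
  have hL : 0 ≤ Real.log N := Real.log_nonneg (by exact_mod_cast hN)
  calc ∑ q ∈ Icc 1 M, 1 / (Nat.totient q : ℝ) ≤ ∑ q ∈ Icc 1 M, (1 + 2 * Real.log N) * (1 / (q : ℝ)) := by
        apply sum_le_sum
        intro q hq
        rw [mem_Icc] at hq
        exact Pool.Agent.TH212.EH.inv_phi q hq.1 N (hq.2.trans hMN)
    _ = (1 + 2 * Real.log N) * ∑ q ∈ Icc 1 M, 1 / (q : ℝ) := by rw [mul_sum]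
    _ ≤ (1 + 2 * Real.log N) * ∑ q ∈ Icc 1 N, 1 / (q : ℝ) := by
        apply mul_le_mul_of_nonneg_left _ (by linarith)
        exact sum_le_sum_of_subset_of_nonneg (Icc_subset_Icc_right hMN) (fun _ _ _ => by positivity)
    _ ≤ _ := mul_le_mul_of_nonneg_left (harm_le N) (by linarith)

/-- the two forms of the discrepancy -/
theorem BB_disc : ∃ N0 : ℕ, ∀ N : ℕ, N0 ≤ N → ∀ g : ℕ → ℝ, (∀ m, ¬ Squarefree m → g m = 0) →
    ∀ Q : ℝ, 4 * Real.log N ^ 2 ≤ Q → Q ≤ N →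
    BB g N Q ≤ 10 * Real.log N ^ 4 * disc g N Q ∧ disc g N Q ≤ 3 * Real.log N ^ 2 * BB g N Q := by
  obtain ⟨N1, h1⟩ := one_le_disc
  obtain ⟨N2, h2⟩ := evN _ (Real.tendsto_log_atTop.eventually_ge_atTop 20)
  refine ⟨N1 + N2 + 3, fun N hN g hg Q hQ hQN => ?_⟩
  have hL := h2 N (by omega)
  have h3 := h1 N (by omega) g hg Q hQ
  set L := Real.log N with hLdef
  have hQ0 : 0 ≤ Q := by nlinarith
  have hQ1 : 1 ≤ Q := by nlinarith
  have hfl : ⌊Q⌋₊ ≤ N := Nat.floor_le_of_le hQN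
  have hD : 0 ≤ disc g N Q := sum_nonneg fun _ _ => abs_nonneg _
  have h4 : ∑ q ∈ (Icc 1 ⌊Q⌋₊).filter (fun q => q.Coprime N), 1 / (Nat.totient q : ℝ) ≤ (1 + 2 * L) * (1 + L) := by
    refine le_trans ?_ (inv_phi_sum N ⌊Q⌋₊ hfl (by omega))
    exact sum_le_sum_of_subset_of_nonneg (filter_subset _ _) (fun _ _ _ => by positivity)
  have h5 : (1 + 2 * L) * (1 + L) ≤ 9 / 4 * L ^ 2 := by nlinarith
  have hT : |twistedSum g 1 N| ≤ BB g N Q := by
    unfold BB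
    apply single_le_sum (f := fun q => |twistedSum g q N|) (fun _ _ => abs_nonneg _)
    rw [mem_filter, mem_Icc]
    exact ⟨⟨le_rfl, Nat.le_floor (by exact_mod_cast hQ1)⟩, Nat.coprime_one_left N⟩
  constructor
  · have h6 : BB g N Q ≤ disc g N Q + |twistedSum g 1 N| * ∑ q ∈ (Icc 1 ⌊Q⌋₊).filter (fun q => q.Coprime N), 1 / (Nat.totient q : ℝ) := by
      unfold BB disc
      rw [mul_sum, ← sum_add_distrib]
      apply sum_le_sum
      intro q _
      have e1 := abs_sub_abs_le_abs_sub (twistedSum g q N) (1 / (Nat.totient q : ℝ) * twistedSum g 1 N)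
      rw [abs_mul, abs_of_nonneg (by positivity : (0 : ℝ) ≤ 1 / (Nat.totient q : ℝ))] at e1
      linarith
    have h7 : |twistedSum g 1 N| * ∑ q ∈ (Icc 1 ⌊Q⌋₊).filter (fun q => q.Coprime N), 1 / (Nat.totient q : ℝ) ≤
        4 * L ^ 2 * disc g N Q * (9 / 4 * L ^ 2) :=
      mul_le_mul h3 (h4.trans h5) (sum_nonneg fun _ _ => by positivity) (by positivity)
    have h8 : disc g N Q ≤ L ^ 4 * disc g N Q := by
      apply le_mul_of_one_le_left hD
      exact one_le_pow₀ (by linarith)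
    have h9 : 4 * L ^ 2 * disc g N Q * (9 / 4 * L ^ 2) = 9 * (L ^ 4 * disc g N Q) := by ring
    linarith
  · have h6 : disc g N Q ≤ BB g N Q + |twistedSum g 1 N| * ∑ q ∈ (Icc 1 ⌊Q⌋₊).filter (fun q => q.Coprime N), 1 / (Nat.totient q : ℝ) := by
      unfold BB disc
      rw [mul_sum, ← sum_add_distrib]
      apply sum_le_sum
      intro q _
      have e1 := abs_sub (twistedSum g q N) (1 / (Nat.totient q : ℝ) * twistedSum g 1 N)
      rw [abs_mul, abs_of_nonneg (by positivity : (0 : ℝ) ≤ 1 / (Nat.totient q : ℝ))] at e1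
      linarith
    have hB0 : 0 ≤ BB g N Q := sum_nonneg fun _ _ => abs_nonneg _
    have h7 : |twistedSum g 1 N| * ∑ q ∈ (Icc 1 ⌊Q⌋₊).filter (fun q => q.Coprime N), 1 / (Nat.totient q : ℝ) ≤
        BB g N Q * (9 / 4 * L ^ 2) :=
      mul_le_mul hT (h4.trans h5) (sum_nonneg fun _ _ => by positivity) hB0
    nlinarith

end Pool.Agent.K3h95.LL
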