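import Mathlib
import Pool.Agent.K3h95.LL.A7

/-! The lower bound for the sum over all moduli up to `N / (log N) ^ B` (helper95). -/

set_option autoImplicit false

open Finset

open scoped ArithmeticFunction.vonMangoldt

namespace Pool.Agent.K3h95.LL

open Pool.Agent.TH445.OI
open Pool.Agent.Results.MP_e9eb55_nt.AlmostAllN (twistedSum disc g₁ g₂)

lemma I_disj {N i j q : ℕ} (hi : 1 ≤ i) (hij : i < j) (h1 : q ∈ I N i) (h2 : q ∈ I N j) : False := by
  rw [mem_I hi] at h1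
  rw [mem_I (by omega)] at h2
  have : q * (i + 1) ≤ q * j := Nat.mul_le_mul_left _ hij
  omega

lemma sum_AA_le (g : ℕ → ℝ) (N J : ℕ) (Q : ℝ) (hJ : 1 ≤ J) (hQ0 : 0 < Q) (hQ : (N : ℝ) / Q ≤ J) :
    ∑ j ∈ Icc J (2 * J), AA g N j ≤ BB g N Q := by
  unfold AA BB
  rw [← sum_biUnion]
  · apply sum_le_sum_of_subset_of_nonneg
    · intro q hq
      rw [mem_biUnion] at hq
      obtain ⟨j, hj, hq⟩ := hq
      rw [mem_Icc] at hj
      rw [mem_filter] at hq ⊢
      have hj1 : 1 ≤ j := by omega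
      have h1 := hq.1
      rw [mem_I hj1] at h1
      refine ⟨?_, hq.2⟩
      rw [mem_Icc]
      constructor
      · by_contra hcon
        have : q = 0 := by omega
        subst this
        omega
      · apply Nat.le_floor
        have h2 : (q : ℝ) * j ≤ N := by exact_mod_cast h1.2.le
        have h3 : (J : ℝ) ≤ j := by exact_mod_cast hj.1
        have h4 : (0 : ℝ) < J := by exact_mod_cast hJ
        rw [div_le_iff₀ hQ0] at hQ
        have h5 : (q : ℝ) * J ≤ Q * J := by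
          calc (q : ℝ) * J ≤ q * j := mul_le_mul_of_nonneg_left h3 (Nat.cast_nonneg _)
            _ ≤ N := h2
            _ ≤ J * Q := hQ
            _ = Q * J := mul_comm _ _
        exact le_of_mul_le_mul_right h5 h4
    · intro _ _ _; exact abs_nonneg _
  · intro i hi j hj hij
    rw [mem_coe, mem_Icc] at hi hj
    rw [Function.onFun, disjoint_left]
    intro q h1 h2
    rw [mem_filter] at h1 h2
    rcases Nat.lt_or_gt_of_ne hij with h | h
    · exact I_disj (by omega) h h1.1 h2.1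
    · exact I_disj (by omega) h h2.1 h1.1

theorem BB_low (B : ℕ) (hB : 2 ≤ B) : ∃ N0 : ℕ, 3 ≤ N0 ∧ ∀ N : ℕ, N0 ≤ N → ∀ a b : ℝ, 1 ≤ a → a ≤ Real.log N → 0 ≤ b → b ≤ 1 →
    b * (4 + 6 * Real.log (Real.log N ^ (B + 1))) ≤ a / 100 →
    a * N / (16000 * Real.log N ^ B * Real.log (Real.log N ^ (B + 1))) ≤ BB (gg a b N) N (N / Real.log N ^ B) := by
  obtain ⟨N1, hN1, h1⟩ := pair (B + 1)
  obtain ⟨J0, hJ0⟩ := many_primes
  obtain ⟨N2, h2⟩ := evN _ (Real.tendsto_log_atTop.eventually_ge_atTop ((J0 : ℝ) + 60))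
  refine ⟨N1 + N2 + 3, by omega, fun N hN a b ha1 haL hb0 hb1 hab => ?_⟩
  have hN0 : (0 : ℝ) < N := by exact_mod_cast (by omega : 0 < N)
  set L := Real.log N with hL
  have hJ0' : (0 : ℝ) ≤ J0 := Nat.cast_nonneg _
  have hLbig := h2 N (by omega)
  rw [← hL] at hLbig
  have hL60 : 60 ≤ L := by linarith
  have hL0 : 0 < L := by linarith
  have hL1 : 1 ≤ L := by linarith
  have hLB1 : 1 ≤ L ^ B := one_le_pow₀ hL1
  have hLB2 : L ^ 2 ≤ L ^ B := pow_le_pow_right₀ hL1 hB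
  have hLB3 : 20 * L ≤ L ^ B := by nlinarith
  set J := ⌈L ^ B⌉₊ with hJ
  have hJ1 : L ^ B ≤ J := Nat.le_ceil _
  have hJ2 : (J : ℝ) ≤ 2 * L ^ B := by
    have := (Nat.ceil_lt_add_one (by linarith : 0 ≤ L ^ B)).le
    linarith
  have hJpos : (0 : ℝ) < J := by linarith
  have hJ60 : 60 ≤ J := by
    have : (60 : ℝ) ≤ J := by nlinarith
    exact_mod_cast this
  have hJJ0 : J0 ≤ J := by
    have : (J0 : ℝ) ≤ J := by nlinarith
    exact_mod_cast this
  have h2J : 2 * (J : ℝ) ≤ L ^ (B + 1) := by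
    rw [pow_succ]
    have : L ^ B * 4 ≤ L ^ B * L := mul_le_mul_of_nonneg_left (by linarith) (by linarith)
    linarith
  set ℓ := Real.log (L ^ (B + 1)) with hℓ
  have hlog2J : Real.log (2 * J) ≤ ℓ := Real.log_le_log (by positivity) h2J
  have hlog2J0 : 0 < Real.log (2 * J) := Real.log_pos (by linarith)
  have hℓ0 : 0 < ℓ := by linarith
  set S := (Ioc J (2 * J)).filter (fun p => p.Prime ∧ ¬ p ∣ N) with hS
  have hcard := hJ0 J hJJ0 N (by omega) (by linarith)
  rw [← hS] at hcard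
  -- the sum over the pairs
  have e1 : ∀ p ∈ S, a * (N / (400 * (2 * (J : ℝ)) ^ 2)) ≤ AA (gg a b N) N p + AA (gg a b N) N (p - 1) := by
    intro p hp
    rw [hS, mem_filter, mem_Ioc] at hp
    have hp0 : (0 : ℝ) < p := by exact_mod_cast hp.2.1.pos
    have hp2 : (p : ℝ) ≤ 2 * J := by exact_mod_cast hp.1.2
    have f1 : Real.log p ≤ ℓ := Real.log_le_log hp0 (hp2.trans h2J)
    have f2 : b * (4 + 6 * Real.log p) ≤ b * (4 + 6 * ℓ) := mul_le_mul_of_nonneg_left (by linarith) hb0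
    refine le_trans ?_ (h1 N (by omega) p hp.2.1 hp.2.2 (by omega) (hp2.trans h2J) a b ha1 haL hb0 hb1 (f2.trans hab))
    apply mul_le_mul_of_nonneg_left _ (by linarith)
    apply div_le_div_of_nonneg_left hN0.le (by positivity)
    have := pow_le_pow_left₀ hp0.le hp2 2
    linarith
  have e2 := sum_le_sum e1
  rw [sum_const, nsmul_eq_mul, sum_add_distrib] at e2
  have hA0 : ∀ j, 0 ≤ AA (gg a b N) N j := fun j => sum_nonneg fun _ _ => abs_nonneg _
  have e3 : ∑ p ∈ S, AA (gg a b N) N p ≤ ∑ j ∈ Icc J (2 * J), AA (gg a b N) N j := by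
    apply sum_le_sum_of_subset_of_nonneg _ (fun j _ _ => hA0 j)
    intro p hp
    rw [hS, mem_filter, mem_Ioc] at hp
    rw [mem_Icc]; omega
  have e4 : ∑ p ∈ S, AA (gg a b N) N (p - 1) ≤ ∑ j ∈ Icc J (2 * J), AA (gg a b N) N j := by
    have f1 : ∑ p ∈ S, AA (gg a b N) N (p - 1) = ∑ j ∈ S.image (fun p => p - 1), AA (gg a b N) N j := by
      rw [sum_image]
      intro x hx y hy hxy
      rw [mem_coe, hS, mem_filter, mem_Ioc] at hx hy
      simp only at hxy
      omega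
    rw [f1]
    apply sum_le_sum_of_subset_of_nonneg _ (fun j _ _ => hA0 j)
    intro j hj
    rw [mem_image] at hj
    obtain ⟨p, hp, rfl⟩ := hj
    rw [hS, mem_filter, mem_Ioc] at hp
    rw [mem_Icc]; omega
  have e5 := sum_AA_le (gg a b N) N J (N / L ^ B) (by omega) (by positivity) (by
    rw [div_div_cancel₀ hN0.ne']; exact hJ1)
  have e6 : 4 / 5 * (J : ℝ) / ℓ ≤ (S.card : ℝ) := by
    rw [div_le_iff₀ hℓ0]
    refine hcard.trans ?_
    exact mul_le_mul_of_nonneg_left hlog2J (Nat.cast_nonneg _)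
  have e7 : 4 / 5 * (J : ℝ) / ℓ * (a * (N / (400 * (2 * (J : ℝ)) ^ 2))) ≤ 2 * BB (gg a b N) N (N / L ^ B) := by
    have : 0 ≤ a * (N / (400 * (2 * (J : ℝ)) ^ 2)) := by positivity
    have f2 := mul_le_mul_of_nonneg_right e6 this
    linarith
  have e8 : 4 / 5 * (J : ℝ) / ℓ * (a * (N / (400 * (2 * (J : ℝ)) ^ 2))) = a * N / (2000 * J * ℓ) := by
    field_simp
    norm_num
  have e9 : 2 * (a * N / (16000 * L ^ B * ℓ)) ≤ a * N / (2000 * J * ℓ) := by
    rw [mul_div_assoc', div_le_div_iff₀ (by positivity) (by positivity)]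
    have g0 : 0 ≤ a * N * ℓ := by positivity
    have g1 : a * N * ℓ * (4000 * J) ≤ a * N * ℓ * (16000 * L ^ B) :=
      mul_le_mul_of_nonneg_left (by linarith) g0
    linarith
  linarith

end Pool.Agent.K3h95.LL
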